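import Pool.Agent.R858.SS.Contain

/-!
The form F lies in the cube of the ideal of every singular point.
-/

namespace R858SS

open MvPolynomial

noncomputable section

lemma comb {I : Ideal R} {f g u : R} (n : ℤ) (hn : n ≠ 0) (p q : R) (hf : f ∈ I) (hg : g ∈ I)
    (h : (n : R) * u = p * f + q * g) : u ∈ I := by
  have h1 : (n : R) * u ∈ I := by
    rw [h]; exact I.add_mem (I.mul_mem_left _ hf) (I.mul_mem_left _ hg)
  have h2 : u = C ((n : ℂ)⁻¹) * ((n : R) * u) := by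
    have e : (n : R) = C (n : ℂ) := by simp
    rw [← mul_assoc, e, ← C_mul, inv_mul_cancel₀ (Int.cast_ne_zero.2 hn), C_1, one_mul]
  rw [h2]
  exact I.mul_mem_left _ h1

lemma mem3 {I : Ideal R} {a b c : R} (ha : a ∈ I) (hb : b ∈ I) (hc : c ∈ I) (q : R) :
    a * b * c * q ∈ I ^ 3 := by
  have : a * b * c ∈ I ^ 3 := by
    rw [pow_succ, pow_two]; exact Ideal.mul_mem_mul (Ideal.mul_mem_mul ha hb) hc
  exact Ideal.mul_mem_right _ _ this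

lemma mem2 {I : Ideal R} {a b : R} (ha : a ∈ I) (hb : b ∈ I) (q : R) :
    a * b * q ∈ I ^ 2 := by
  have : a * b ∈ I ^ 2 := by
    rw [pow_two]; exact Ideal.mul_mem_mul ha hb
  exact Ideal.mul_mem_right _ _ this

lemma mem12 {I : Ideal R} {a b : R} (ha : a ∈ I) (hb : b ∈ I ^ 2) (q : R) :
    a * b * q ∈ I ^ 3 := by
  have : a * b ∈ I ^ 3 := by
    rw [pow_succ, mul_comm]
    exact Ideal.mul_mem_mul ha hb
  exact Ideal.mul_mem_right _ _ this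

lemma typeA {I : Ideal R} (hx : px ∈ I) (hy : py ∈ I) : pF ∈ I ^ 3 := by
  have h1 : py - 2 * px ∈ I := I.sub_mem hy (I.mul_mem_left _ hx)
  have h2 : py + 2 * px ∈ I := I.add_mem hy (I.mul_mem_left _ hx)
  have h3 : py - 3 * px ∈ I := I.sub_mem hy (I.mul_mem_left _ hx)
  have := mem3 h1 h2 h3 (pC * pF2)
  have e : pF = (py - 2 * px) * (py + 2 * px) * (py - 3 * px) * (pC * pF2) := by
    rw [pF, pE]; ring
  rw [e]; exact this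

lemma typeB {I : Ideal R} (hy : py ∈ I) (hz : pz ∈ I) : pF ∈ I ^ 3 := by
  have := mem3 hz (I.sub_mem hy hz) (I.add_mem hy hz) ((px ^ 2 - pz ^ 2) * pE * pF2)
  have e : pF = pz * (py - pz) * (py + pz) * ((px ^ 2 - pz ^ 2) * pE * pF2) := by
    rw [pF, pC]; ring
  rw [e]; exact this

lemma typeB' {I : Ideal R} (hx : px ∈ I) (hz : pz ∈ I) : pF ∈ I ^ 3 := by
  have := mem3 hz (I.sub_mem hx hz) (I.add_mem hx hz) ((py ^ 2 - pz ^ 2) * pE * pF2)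
  have e : pF = pz * (px - pz) * (px + pz) * ((py ^ 2 - pz ^ 2) * pE * pF2) := by
    rw [pF, pC]; ring
  rw [e]; exact this

lemma typeC {I : Ideal R} (hu : px ^ 2 - pz ^ 2 ∈ I) (hv : py ^ 2 - pz ^ 2 ∈ I) :
    pF ∈ I ^ 3 := by
  have h2 : pF2 ∈ I := by
    have e : pF2 = (pE * (px ^ 2 - py ^ 2 + pz ^ 2) + 3 * pz * (12 * px + py) *
        (pz * (py ^ 2 - pz ^ 2))) * (px ^ 2 - pz ^ 2) +
        (pE * (pz ^ 2 - (px ^ 2 - py ^ 2))) * (py ^ 2 - pz ^ 2) := by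
      rw [pF2, pG4, pC]; ring
    rw [e]; exact I.add_mem (I.mul_mem_left _ hu) (I.mul_mem_left _ hv)
  have := mem3 hu hv h2 (pz * pE)
  have e : pF = (px ^ 2 - pz ^ 2) * (py ^ 2 - pz ^ 2) * pF2 * (pz * pE) := by
    rw [pF, pC]; ring
  rw [e]; exact this

lemma typeD {I : Ideal R} (hz : pz ∈ I) (hw : px ^ 2 - py ^ 2 ∈ I) : pF ∈ I ^ 3 := by
  have h2 : pF2 ∈ I ^ 2 := by
    have e : pF2 = (px ^ 2 - py ^ 2) * (px ^ 2 - py ^ 2) * pE + pz * pz *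
        (pE * (px ^ 2 + py ^ 2 - 2 * pz ^ 2) + 3 * (12 * px + py) *
        ((px ^ 2 - pz ^ 2) * (py ^ 2 - pz ^ 2))) := by
      rw [pF2, pG4, pC]; ring
    rw [e]; exact (I ^ 2).add_mem (mem2 hw hw _) (mem2 hz hz _)
  have := mem12 hz h2 ((px ^ 2 - pz ^ 2) * (py ^ 2 - pz ^ 2) * pE)
  have e : pF = pz * pF2 * ((px ^ 2 - pz ^ 2) * (py ^ 2 - pz ^ 2) * pE) := by
    rw [pF, pC]; ring
  rw [e]; exact this

lemma typeE {I : Ideal R} (hu : px ^ 2 - pz ^ 2 ∈ I) (hy : py ∈ I) : pF ∈ I ^ 3 := by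
  have h2 : pF2 ∈ I ^ 2 := by
    have e : pF2 = (px ^ 2 - pz ^ 2) * (px ^ 2 - pz ^ 2) * (12 * px * (px ^ 2 + 3 * pz ^ 2))
        + py * (px ^ 2 - pz ^ 2) * (-(4 * px ^ 4 + 8 * px ^ 2 * pz ^ 2 + 3 * pz ^ 4))
        + py * py * (-27*px^5 + 9*px^4*py + 18*px^3*py^2 + 45*px^3*pz^2 - 6*px^2*py^3
          - 3*px*py^4 - 3*px*py^2*pz^2 - 30*px*pz^4 + py^5 + py^3*pz^2 - 5*py*pz^4) := by
      rw [pF2, pG4, pC, pE]; ring
    rw [e]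
    exact (I ^ 2).add_mem ((I ^ 2).add_mem (mem2 hu hu _) (mem2 hy hu _)) (mem2 hy hy _)
  have := mem12 hu h2 (pz * (py ^ 2 - pz ^ 2) * pE)
  have e : pF = (px ^ 2 - pz ^ 2) * pF2 * (pz * (py ^ 2 - pz ^ 2) * pE) := by
    rw [pF, pC]; ring
  rw [e]; exact this

lemma typeE' {I : Ideal R} (hv : py ^ 2 - pz ^ 2 ∈ I) (hx : px ∈ I) : pF ∈ I ^ 3 := by
  have h2 : pF2 ∈ I ^ 2 := by
    have e : pF2 = (py ^ 2 - pz ^ 2) * (py ^ 2 - pz ^ 2) * (py * (py ^ 2 + 3 * pz ^ 2))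
        + px * (py ^ 2 - pz ^ 2) * (-(3 * py ^ 4 + 6 * py ^ 2 * pz ^ 2 + 36 * pz ^ 4))
        + px * px * (12*px^5 - 4*px^4*py - 27*px^3*py^2 + 12*px^3*pz^2 + 9*px^2*py^3
          - 4*px^2*py*pz^2 + 18*px*py^4 + 45*px*py^2*pz^2 - 60*px*pz^4 - 6*py^5 + 5*py*pz^4)
        := by
      rw [pF2, pG4, pC, pE]; ring
    rw [e]
    exact (I ^ 2).add_mem ((I ^ 2).add_mem (mem2 hv hv _) (mem2 hx hv _)) (mem2 hx hx _)
  have := mem12 hv h2 (pz * (px ^ 2 - pz ^ 2) * pE)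
  have e : pF = (py ^ 2 - pz ^ 2) * pF2 * (pz * (px ^ 2 - pz ^ 2) * pE) := by
    rw [pF, pC]; ring
  rw [e]; exact this

lemma typeF {I : Ideal R} (hC : pC ∈ I) (hE : pE ∈ I) : pF ∈ I ^ 3 := by
  have h2 : pF2 ∈ I := I.add_mem (I.mul_mem_right _ hE) (I.mul_mem_left _ hC)
  have := mem3 hC hE h2 1
  rw [mul_one] at this
  exact this

lemma q_0_1 {I : Ideal R} (h1 : pz ∈ I) (h2 : px - pz ∈ I) : pF ∈ I ^ 3 :=
  typeB' (comb 1 (by norm_num) (1) (1) h1 h2 (by push_cast; ring)) (comb 1 (by norm_num) (1) (0) h1 h2 (by push_cast; ring))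

lemma q_0_2 {I : Ideal R} (h1 : pz ∈ I) (h2 : px + pz ∈ I) : pF ∈ I ^ 3 :=
  typeB' (comb 1 (by norm_num) (-1) (1) h1 h2 (by push_cast; ring)) (comb 1 (by norm_num) (1) (0) h1 h2 (by push_cast; ring))

lemma q_0_3 {I : Ideal R} (h1 : pz ∈ I) (h2 : py - pz ∈ I) : pF ∈ I ^ 3 :=
  typeB (comb 1 (by norm_num) (1) (1) h1 h2 (by push_cast; ring)) (comb 1 (by norm_num) (1) (0) h1 h2 (by push_cast; ring))

lemma q_0_4 {I : Ideal R} (h1 : pz ∈ I) (h2 : py + pz ∈ I) : pF ∈ I ^ 3 :=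
  typeB (comb 1 (by norm_num) (-1) (1) h1 h2 (by push_cast; ring)) (comb 1 (by norm_num) (1) (0) h1 h2 (by push_cast; ring))

lemma q_0_5 {I : Ideal R} (h1 : pz ∈ I) (h2 : px ∈ I) : pF ∈ I ^ 3 :=
  typeB' (comb 1 (by norm_num) (0) (1) h1 h2 (by push_cast; ring)) (comb 1 (by norm_num) (1) (0) h1 h2 (by push_cast; ring))

lemma q_0_6 {I : Ideal R} (h1 : pz ∈ I) (h2 : py ∈ I) : pF ∈ I ^ 3 :=
  typeB (comb 1 (by norm_num) (0) (1) h1 h2 (by push_cast; ring)) (comb 1 (by norm_num) (1) (0) h1 h2 (by push_cast; ring))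

lemma q_0_7 {I : Ideal R} (h1 : pz ∈ I) (h2 : px - py ∈ I) : pF ∈ I ^ 3 :=
  typeD h1 (comb 1 (by norm_num) 0 (px + py) h1 h2 (by push_cast; ring))

lemma q_0_8 {I : Ideal R} (h1 : pz ∈ I) (h2 : px + py ∈ I) : pF ∈ I ^ 3 :=
  typeD h1 (comb 1 (by norm_num) 0 (px - py) h1 h2 (by push_cast; ring))

lemma q_0_9 {I : Ideal R} (h1 : pz ∈ I) (h2 : py - 2 * px ∈ I) : pF ∈ I ^ 3 :=
  typeF (comb 1 (by norm_num) ((px ^ 2 - pz ^ 2) * (py ^ 2 - pz ^ 2)) 0 h1 h2 (by rw [pC]; push_cast; ring))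
    (comb 1 (by norm_num) 0 ((py + 2 * px) * (py - 3 * px)) h1 h2 (by rw [pE]; push_cast; ring))

lemma q_0_10 {I : Ideal R} (h1 : pz ∈ I) (h2 : py + 2 * px ∈ I) : pF ∈ I ^ 3 :=
  typeF (comb 1 (by norm_num) ((px ^ 2 - pz ^ 2) * (py ^ 2 - pz ^ 2)) 0 h1 h2 (by rw [pC]; push_cast; ring))
    (comb 1 (by norm_num) 0 ((py - 2 * px) * (py - 3 * px)) h1 h2 (by rw [pE]; push_cast; ring))

lemma q_0_11 {I : Ideal R} (h1 : pz ∈ I) (h2 : py - 3 * px ∈ I) : pF ∈ I ^ 3 :=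
  typeF (comb 1 (by norm_num) ((px ^ 2 - pz ^ 2) * (py ^ 2 - pz ^ 2)) 0 h1 h2 (by rw [pC]; push_cast; ring))
    (comb 1 (by norm_num) 0 ((py - 2 * px) * (py + 2 * px)) h1 h2 (by rw [pE]; push_cast; ring))

lemma q_1_2 {I : Ideal R} (h1 : px - pz ∈ I) (h2 : px + pz ∈ I) : pF ∈ I ^ 3 :=
  typeB' (comb 2 (by norm_num) (1) (1) h1 h2 (by push_cast; ring)) (comb 2 (by norm_num) (-1) (1) h1 h2 (by push_cast; ring))

lemma q_1_3 {I : Ideal R} (h1 : px - pz ∈ I) (h2 : py - pz ∈ I) : pF ∈ I ^ 3 :=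
  typeC (comb 1 (by norm_num) (px + pz) 0 h1 h2 (by push_cast; ring)) (comb 1 (by norm_num) 0 (py + pz) h1 h2 (by push_cast; ring))

lemma q_1_4 {I : Ideal R} (h1 : px - pz ∈ I) (h2 : py + pz ∈ I) : pF ∈ I ^ 3 :=
  typeC (comb 1 (by norm_num) (px + pz) 0 h1 h2 (by push_cast; ring)) (comb 1 (by norm_num) 0 (py - pz) h1 h2 (by push_cast; ring))

lemma q_1_5 {I : Ideal R} (h1 : px - pz ∈ I) (h2 : px ∈ I) : pF ∈ I ^ 3 :=
  typeB' (comb 1 (by norm_num) (0) (1) h1 h2 (by push_cast; ring)) (comb 1 (by norm_num) (-1) (1) h1 h2 (by push_cast; ring))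

lemma q_1_6 {I : Ideal R} (h1 : px - pz ∈ I) (h2 : py ∈ I) : pF ∈ I ^ 3 :=
  typeE (comb 1 (by norm_num) (px + pz) 0 h1 h2 (by push_cast; ring)) h2

lemma q_1_7 {I : Ideal R} (h1 : px - pz ∈ I) (h2 : px - py ∈ I) : pF ∈ I ^ 3 :=
  typeC (comb 1 (by norm_num) (px + pz) 0 h1 h2 (by push_cast; ring)) (comb 1 (by norm_num) (px + pz) (-(px + py)) h1 h2 (by push_cast; ring))

lemma q_1_8 {I : Ideal R} (h1 : px - pz ∈ I) (h2 : px + py ∈ I) : pF ∈ I ^ 3 :=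
  typeC (comb 1 (by norm_num) (px + pz) 0 h1 h2 (by push_cast; ring)) (comb 1 (by norm_num) (px + pz) (-(px - py)) h1 h2 (by push_cast; ring))

lemma q_1_9 {I : Ideal R} (h1 : px - pz ∈ I) (h2 : py - 2 * px ∈ I) : pF ∈ I ^ 3 :=
  typeF (comb 1 (by norm_num) (pz * (px + pz) * (py ^ 2 - pz ^ 2)) 0 h1 h2 (by rw [pC]; push_cast; ring))
    (comb 1 (by norm_num) 0 ((py + 2 * px) * (py - 3 * px)) h1 h2 (by rw [pE]; push_cast; ring))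

lemma q_1_10 {I : Ideal R} (h1 : px - pz ∈ I) (h2 : py + 2 * px ∈ I) : pF ∈ I ^ 3 :=
  typeF (comb 1 (by norm_num) (pz * (px + pz) * (py ^ 2 - pz ^ 2)) 0 h1 h2 (by rw [pC]; push_cast; ring))
    (comb 1 (by norm_num) 0 ((py - 2 * px) * (py - 3 * px)) h1 h2 (by rw [pE]; push_cast; ring))

lemma q_1_11 {I : Ideal R} (h1 : px - pz ∈ I) (h2 : py - 3 * px ∈ I) : pF ∈ I ^ 3 :=
  typeF (comb 1 (by norm_num) (pz * (px + pz) * (py ^ 2 - pz ^ 2)) 0 h1 h2 (by rw [pC]; push_cast; ring))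
    (comb 1 (by norm_num) 0 ((py - 2 * px) * (py + 2 * px)) h1 h2 (by rw [pE]; push_cast; ring))

lemma q_2_3 {I : Ideal R} (h1 : px + pz ∈ I) (h2 : py - pz ∈ I) : pF ∈ I ^ 3 :=
  typeC (comb 1 (by norm_num) (px - pz) 0 h1 h2 (by push_cast; ring)) (comb 1 (by norm_num) 0 (py + pz) h1 h2 (by push_cast; ring))

lemma q_2_4 {I : Ideal R} (h1 : px + pz ∈ I) (h2 : py + pz ∈ I) : pF ∈ I ^ 3 :=
  typeC (comb 1 (by norm_num) (px - pz) 0 h1 h2 (by push_cast; ring)) (comb 1 (by norm_num) 0 (py - pz) h1 h2 (by push_cast; ring))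

lemma q_2_5 {I : Ideal R} (h1 : px + pz ∈ I) (h2 : px ∈ I) : pF ∈ I ^ 3 :=
  typeB' (comb 1 (by norm_num) (0) (1) h1 h2 (by push_cast; ring)) (comb 1 (by norm_num) (1) (-1) h1 h2 (by push_cast; ring))

lemma q_2_6 {I : Ideal R} (h1 : px + pz ∈ I) (h2 : py ∈ I) : pF ∈ I ^ 3 :=
  typeE (comb 1 (by norm_num) (px - pz) 0 h1 h2 (by push_cast; ring)) h2

lemma q_2_7 {I : Ideal R} (h1 : px + pz ∈ I) (h2 : px - py ∈ I) : pF ∈ I ^ 3 :=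
  typeC (comb 1 (by norm_num) (px - pz) 0 h1 h2 (by push_cast; ring)) (comb 1 (by norm_num) (px - pz) (-(px + py)) h1 h2 (by push_cast; ring))

lemma q_2_8 {I : Ideal R} (h1 : px + pz ∈ I) (h2 : px + py ∈ I) : pF ∈ I ^ 3 :=
  typeC (comb 1 (by norm_num) (px - pz) 0 h1 h2 (by push_cast; ring)) (comb 1 (by norm_num) (px - pz) (-(px - py)) h1 h2 (by push_cast; ring))

lemma q_2_9 {I : Ideal R} (h1 : px + pz ∈ I) (h2 : py - 2 * px ∈ I) : pF ∈ I ^ 3 :=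
  typeF (comb 1 (by norm_num) (pz * (px - pz) * (py ^ 2 - pz ^ 2)) 0 h1 h2 (by rw [pC]; push_cast; ring))
    (comb 1 (by norm_num) 0 ((py + 2 * px) * (py - 3 * px)) h1 h2 (by rw [pE]; push_cast; ring))

lemma q_2_10 {I : Ideal R} (h1 : px + pz ∈ I) (h2 : py + 2 * px ∈ I) : pF ∈ I ^ 3 :=
  typeF (comb 1 (by norm_num) (pz * (px - pz) * (py ^ 2 - pz ^ 2)) 0 h1 h2 (by rw [pC]; push_cast; ring))
    (comb 1 (by norm_num) 0 ((py - 2 * px) * (py - 3 * px)) h1 h2 (by rw [pE]; push_cast; ring))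

lemma q_2_11 {I : Ideal R} (h1 : px + pz ∈ I) (h2 : py - 3 * px ∈ I) : pF ∈ I ^ 3 :=
  typeF (comb 1 (by norm_num) (pz * (px - pz) * (py ^ 2 - pz ^ 2)) 0 h1 h2 (by rw [pC]; push_cast; ring))
    (comb 1 (by norm_num) 0 ((py - 2 * px) * (py + 2 * px)) h1 h2 (by rw [pE]; push_cast; ring))

lemma q_3_4 {I : Ideal R} (h1 : py - pz ∈ I) (h2 : py + pz ∈ I) : pF ∈ I ^ 3 :=
  typeB (comb 2 (by norm_num) (1) (1) h1 h2 (by push_cast; ring)) (comb 2 (by norm_num) (-1) (1) h1 h2 (by push_cast; ring))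

lemma q_3_5 {I : Ideal R} (h1 : py - pz ∈ I) (h2 : px ∈ I) : pF ∈ I ^ 3 :=
  typeE' (comb 1 (by norm_num) (py + pz) 0 h1 h2 (by push_cast; ring)) h2

lemma q_3_6 {I : Ideal R} (h1 : py - pz ∈ I) (h2 : py ∈ I) : pF ∈ I ^ 3 :=
  typeB (comb 1 (by norm_num) (0) (1) h1 h2 (by push_cast; ring)) (comb 1 (by norm_num) (-1) (1) h1 h2 (by push_cast; ring))

lemma q_3_7 {I : Ideal R} (h1 : py - pz ∈ I) (h2 : px - py ∈ I) : pF ∈ I ^ 3 :=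
  typeC (comb 1 (by norm_num) (py + pz) (px + py) h1 h2 (by push_cast; ring)) (comb 1 (by norm_num) (py + pz) 0 h1 h2 (by push_cast; ring))

lemma q_3_8 {I : Ideal R} (h1 : py - pz ∈ I) (h2 : px + py ∈ I) : pF ∈ I ^ 3 :=
  typeC (comb 1 (by norm_num) (py + pz) (px - py) h1 h2 (by push_cast; ring)) (comb 1 (by norm_num) (py + pz) 0 h1 h2 (by push_cast; ring))

lemma q_3_9 {I : Ideal R} (h1 : py - pz ∈ I) (h2 : py - 2 * px ∈ I) : pF ∈ I ^ 3 :=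
  typeF (comb 1 (by norm_num) (pz * (px ^ 2 - pz ^ 2) * (py + pz)) 0 h1 h2 (by rw [pC]; push_cast; ring))
    (comb 1 (by norm_num) 0 ((py + 2 * px) * (py - 3 * px)) h1 h2 (by rw [pE]; push_cast; ring))

lemma q_3_10 {I : Ideal R} (h1 : py - pz ∈ I) (h2 : py + 2 * px ∈ I) : pF ∈ I ^ 3 :=
  typeF (comb 1 (by norm_num) (pz * (px ^ 2 - pz ^ 2) * (py + pz)) 0 h1 h2 (by rw [pC]; push_cast; ring))
    (comb 1 (by norm_num) 0 ((py - 2 * px) * (py - 3 * px)) h1 h2 (by rw [pE]; push_cast; ring))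

lemma q_3_11 {I : Ideal R} (h1 : py - pz ∈ I) (h2 : py - 3 * px ∈ I) : pF ∈ I ^ 3 :=
  typeF (comb 1 (by norm_num) (pz * (px ^ 2 - pz ^ 2) * (py + pz)) 0 h1 h2 (by rw [pC]; push_cast; ring))
    (comb 1 (by norm_num) 0 ((py - 2 * px) * (py + 2 * px)) h1 h2 (by rw [pE]; push_cast; ring))

lemma q_4_5 {I : Ideal R} (h1 : py + pz ∈ I) (h2 : px ∈ I) : pF ∈ I ^ 3 :=
  typeE' (comb 1 (by norm_num) (py - pz) 0 h1 h2 (by push_cast; ring)) h2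

lemma q_4_6 {I : Ideal R} (h1 : py + pz ∈ I) (h2 : py ∈ I) : pF ∈ I ^ 3 :=
  typeB (comb 1 (by norm_num) (0) (1) h1 h2 (by push_cast; ring)) (comb 1 (by norm_num) (1) (-1) h1 h2 (by push_cast; ring))

lemma q_4_7 {I : Ideal R} (h1 : py + pz ∈ I) (h2 : px - py ∈ I) : pF ∈ I ^ 3 :=
  typeC (comb 1 (by norm_num) (py - pz) (px + py) h1 h2 (by push_cast; ring)) (comb 1 (by norm_num) (py - pz) 0 h1 h2 (by push_cast; ring))

lemma q_4_8 {I : Ideal R} (h1 : py + pz ∈ I) (h2 : px + py ∈ I) : pF ∈ I ^ 3 :=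
  typeC (comb 1 (by norm_num) (py - pz) (px - py) h1 h2 (by push_cast; ring)) (comb 1 (by norm_num) (py - pz) 0 h1 h2 (by push_cast; ring))

lemma q_4_9 {I : Ideal R} (h1 : py + pz ∈ I) (h2 : py - 2 * px ∈ I) : pF ∈ I ^ 3 :=
  typeF (comb 1 (by norm_num) (pz * (px ^ 2 - pz ^ 2) * (py - pz)) 0 h1 h2 (by rw [pC]; push_cast; ring))
    (comb 1 (by norm_num) 0 ((py + 2 * px) * (py - 3 * px)) h1 h2 (by rw [pE]; push_cast; ring))

lemma q_4_10 {I : Ideal R} (h1 : py + pz ∈ I) (h2 : py + 2 * px ∈ I) : pF ∈ I ^ 3 :=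
  typeF (comb 1 (by norm_num) (pz * (px ^ 2 - pz ^ 2) * (py - pz)) 0 h1 h2 (by rw [pC]; push_cast; ring))
    (comb 1 (by norm_num) 0 ((py - 2 * px) * (py - 3 * px)) h1 h2 (by rw [pE]; push_cast; ring))

lemma q_4_11 {I : Ideal R} (h1 : py + pz ∈ I) (h2 : py - 3 * px ∈ I) : pF ∈ I ^ 3 :=
  typeF (comb 1 (by norm_num) (pz * (px ^ 2 - pz ^ 2) * (py - pz)) 0 h1 h2 (by rw [pC]; push_cast; ring))
    (comb 1 (by norm_num) 0 ((py - 2 * px) * (py + 2 * px)) h1 h2 (by rw [pE]; push_cast; ring))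

lemma q_5_6 {I : Ideal R} (h1 : px ∈ I) (h2 : py ∈ I) : pF ∈ I ^ 3 :=
  typeA (comb 1 (by norm_num) (1) (0) h1 h2 (by push_cast; ring)) (comb 1 (by norm_num) (0) (1) h1 h2 (by push_cast; ring))

lemma q_5_7 {I : Ideal R} (h1 : px ∈ I) (h2 : px - py ∈ I) : pF ∈ I ^ 3 :=
  typeA (comb 1 (by norm_num) (1) (0) h1 h2 (by push_cast; ring)) (comb 1 (by norm_num) (1) (-1) h1 h2 (by push_cast; ring))

lemma q_5_8 {I : Ideal R} (h1 : px ∈ I) (h2 : px + py ∈ I) : pF ∈ I ^ 3 :=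
  typeA (comb 1 (by norm_num) (1) (0) h1 h2 (by push_cast; ring)) (comb 1 (by norm_num) (-1) (1) h1 h2 (by push_cast; ring))

lemma q_5_9 {I : Ideal R} (h1 : px ∈ I) (h2 : py - 2 * px ∈ I) : pF ∈ I ^ 3 :=
  typeA (comb 1 (by norm_num) (1) (0) h1 h2 (by push_cast; ring)) (comb 1 (by norm_num) (2) (1) h1 h2 (by push_cast; ring))

lemma q_5_10 {I : Ideal R} (h1 : px ∈ I) (h2 : py + 2 * px ∈ I) : pF ∈ I ^ 3 :=
  typeA (comb 1 (by norm_num) (1) (0) h1 h2 (by push_cast; ring)) (comb 1 (by norm_num) (-2) (1) h1 h2 (by push_cast; ring))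

lemma q_5_11 {I : Ideal R} (h1 : px ∈ I) (h2 : py - 3 * px ∈ I) : pF ∈ I ^ 3 :=
  typeA (comb 1 (by norm_num) (1) (0) h1 h2 (by push_cast; ring)) (comb 1 (by norm_num) (3) (1) h1 h2 (by push_cast; ring))

lemma q_6_7 {I : Ideal R} (h1 : py ∈ I) (h2 : px - py ∈ I) : pF ∈ I ^ 3 :=
  typeA (comb 1 (by norm_num) (1) (1) h1 h2 (by push_cast; ring)) (comb 1 (by norm_num) (1) (0) h1 h2 (by push_cast; ring))

lemma q_6_8 {I : Ideal R} (h1 : py ∈ I) (h2 : px + py ∈ I) : pF ∈ I ^ 3 :=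
  typeA (comb 1 (by norm_num) (-1) (1) h1 h2 (by push_cast; ring)) (comb 1 (by norm_num) (1) (0) h1 h2 (by push_cast; ring))

lemma q_6_9 {I : Ideal R} (h1 : py ∈ I) (h2 : py - 2 * px ∈ I) : pF ∈ I ^ 3 :=
  typeA (comb 2 (by norm_num) (1) (-1) h1 h2 (by push_cast; ring)) (comb 1 (by norm_num) (1) (0) h1 h2 (by push_cast; ring))

lemma q_6_10 {I : Ideal R} (h1 : py ∈ I) (h2 : py + 2 * px ∈ I) : pF ∈ I ^ 3 :=
  typeA (comb 2 (by norm_num) (-1) (1) h1 h2 (by push_cast; ring)) (comb 1 (by norm_num) (1) (0) h1 h2 (by push_cast; ring))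

lemma q_6_11 {I : Ideal R} (h1 : py ∈ I) (h2 : py - 3 * px ∈ I) : pF ∈ I ^ 3 :=
  typeA (comb 3 (by norm_num) (1) (-1) h1 h2 (by push_cast; ring)) (comb 1 (by norm_num) (1) (0) h1 h2 (by push_cast; ring))

lemma q_7_8 {I : Ideal R} (h1 : px - py ∈ I) (h2 : px + py ∈ I) : pF ∈ I ^ 3 :=
  typeA (comb 2 (by norm_num) (1) (1) h1 h2 (by push_cast; ring)) (comb 2 (by norm_num) (-1) (1) h1 h2 (by push_cast; ring))

lemma q_7_9 {I : Ideal R} (h1 : px - py ∈ I) (h2 : py - 2 * px ∈ I) : pF ∈ I ^ 3 :=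
  typeA (comb 1 (by norm_num) (-1) (-1) h1 h2 (by push_cast; ring)) (comb 1 (by norm_num) (-2) (-1) h1 h2 (by push_cast; ring))

lemma q_7_10 {I : Ideal R} (h1 : px - py ∈ I) (h2 : py + 2 * px ∈ I) : pF ∈ I ^ 3 :=
  typeA (comb 3 (by norm_num) (1) (1) h1 h2 (by push_cast; ring)) (comb 3 (by norm_num) (-2) (1) h1 h2 (by push_cast; ring))

lemma q_7_11 {I : Ideal R} (h1 : px - py ∈ I) (h2 : py - 3 * px ∈ I) : pF ∈ I ^ 3 :=
  typeA (comb 2 (by norm_num) (-1) (-1) h1 h2 (by push_cast; ring)) (comb 2 (by norm_num) (-3) (-1) h1 h2 (by push_cast; ring))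

lemma q_8_9 {I : Ideal R} (h1 : px + py ∈ I) (h2 : py - 2 * px ∈ I) : pF ∈ I ^ 3 :=
  typeA (comb 3 (by norm_num) (1) (-1) h1 h2 (by push_cast; ring)) (comb 3 (by norm_num) (2) (1) h1 h2 (by push_cast; ring))

lemma q_8_10 {I : Ideal R} (h1 : px + py ∈ I) (h2 : py + 2 * px ∈ I) : pF ∈ I ^ 3 :=
  typeA (comb 1 (by norm_num) (-1) (1) h1 h2 (by push_cast; ring)) (comb 1 (by norm_num) (2) (-1) h1 h2 (by push_cast; ring))

lemma q_8_11 {I : Ideal R} (h1 : px + py ∈ I) (h2 : py - 3 * px ∈ I) : pF ∈ I ^ 3 :=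
  typeA (comb 4 (by norm_num) (1) (-1) h1 h2 (by push_cast; ring)) (comb 4 (by norm_num) (3) (1) h1 h2 (by push_cast; ring))

lemma q_9_10 {I : Ideal R} (h1 : py - 2 * px ∈ I) (h2 : py + 2 * px ∈ I) : pF ∈ I ^ 3 :=
  typeA (comb 4 (by norm_num) (-1) (1) h1 h2 (by push_cast; ring)) (comb 2 (by norm_num) (1) (1) h1 h2 (by push_cast; ring))

lemma q_9_11 {I : Ideal R} (h1 : py - 2 * px ∈ I) (h2 : py - 3 * px ∈ I) : pF ∈ I ^ 3 :=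
  typeA (comb 1 (by norm_num) (1) (-1) h1 h2 (by push_cast; ring)) (comb 1 (by norm_num) (3) (-2) h1 h2 (by push_cast; ring))

lemma q_10_11 {I : Ideal R} (h1 : py + 2 * px ∈ I) (h2 : py - 3 * px ∈ I) : pF ∈ I ^ 3 :=
  typeA (comb 5 (by norm_num) (1) (-1) h1 h2 (by push_cast; ring)) (comb 5 (by norm_num) (3) (2) h1 h2 (by push_cast; ring))

/-- the twelve linear forms -/
def lf : Fin 12 → R := ![pz, px - pz, px + pz, py - pz, py + pz, px, py, px - py, px + py,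
  py - 2 * px, py + 2 * px, py - 3 * px]

theorem pF_mem_of_lt {I : Ideal R} (i j : Fin 12) (hij : i < j) (h1 : lf i ∈ I) (h2 : lf j ∈ I) :
    pF ∈ I ^ 3 := by
  match i, j, hij, h1, h2 with
  | 0, 1, _, h1, h2 => exact q_0_1 h1 h2
  | 0, 2, _, h1, h2 => exact q_0_2 h1 h2
  | 0, 3, _, h1, h2 => exact q_0_3 h1 h2
  | 0, 4, _, h1, h2 => exact q_0_4 h1 h2
  | 0, 5, _, h1, h2 => exact q_0_5 h1 h2
  | 0, 6, _, h1, h2 => exact q_0_6 h1 h2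
  | 0, 7, _, h1, h2 => exact q_0_7 h1 h2
  | 0, 8, _, h1, h2 => exact q_0_8 h1 h2
  | 0, 9, _, h1, h2 => exact q_0_9 h1 h2
  | 0, 10, _, h1, h2 => exact q_0_10 h1 h2
  | 0, 11, _, h1, h2 => exact q_0_11 h1 h2
  | 1, 2, _, h1, h2 => exact q_1_2 h1 h2
  | 1, 3, _, h1, h2 => exact q_1_3 h1 h2
  | 1, 4, _, h1, h2 => exact q_1_4 h1 h2
  | 1, 5, _, h1, h2 => exact q_1_5 h1 h2
  | 1, 6, _, h1, h2 => exact q_1_6 h1 h2
  | 1, 7, _, h1, h2 => exact q_1_7 h1 h2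
  | 1, 8, _, h1, h2 => exact q_1_8 h1 h2
  | 1, 9, _, h1, h2 => exact q_1_9 h1 h2
  | 1, 10, _, h1, h2 => exact q_1_10 h1 h2
  | 1, 11, _, h1, h2 => exact q_1_11 h1 h2
  | 2, 3, _, h1, h2 => exact q_2_3 h1 h2
  | 2, 4, _, h1, h2 => exact q_2_4 h1 h2
  | 2, 5, _, h1, h2 => exact q_2_5 h1 h2
  | 2, 6, _, h1, h2 => exact q_2_6 h1 h2
  | 2, 7, _, h1, h2 => exact q_2_7 h1 h2
  | 2, 8, _, h1, h2 => exact q_2_8 h1 h2
  | 2, 9, _, h1, h2 => exact q_2_9 h1 h2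
  | 2, 10, _, h1, h2 => exact q_2_10 h1 h2
  | 2, 11, _, h1, h2 => exact q_2_11 h1 h2
  | 3, 4, _, h1, h2 => exact q_3_4 h1 h2
  | 3, 5, _, h1, h2 => exact q_3_5 h1 h2
  | 3, 6, _, h1, h2 => exact q_3_6 h1 h2
  | 3, 7, _, h1, h2 => exact q_3_7 h1 h2
  | 3, 8, _, h1, h2 => exact q_3_8 h1 h2
  | 3, 9, _, h1, h2 => exact q_3_9 h1 h2
  | 3, 10, _, h1, h2 => exact q_3_10 h1 h2
  | 3, 11, _, h1, h2 => exact q_3_11 h1 h2
  | 4, 5, _, h1, h2 => exact q_4_5 h1 h2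
  | 4, 6, _, h1, h2 => exact q_4_6 h1 h2
  | 4, 7, _, h1, h2 => exact q_4_7 h1 h2
  | 4, 8, _, h1, h2 => exact q_4_8 h1 h2
  | 4, 9, _, h1, h2 => exact q_4_9 h1 h2
  | 4, 10, _, h1, h2 => exact q_4_10 h1 h2
  | 4, 11, _, h1, h2 => exact q_4_11 h1 h2
  | 5, 6, _, h1, h2 => exact q_5_6 h1 h2
  | 5, 7, _, h1, h2 => exact q_5_7 h1 h2
  | 5, 8, _, h1, h2 => exact q_5_8 h1 h2
  | 5, 9, _, h1, h2 => exact q_5_9 h1 h2
  | 5, 10, _, h1, h2 => exact q_5_10 h1 h2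
  | 5, 11, _, h1, h2 => exact q_5_11 h1 h2
  | 6, 7, _, h1, h2 => exact q_6_7 h1 h2
  | 6, 8, _, h1, h2 => exact q_6_8 h1 h2
  | 6, 9, _, h1, h2 => exact q_6_9 h1 h2
  | 6, 10, _, h1, h2 => exact q_6_10 h1 h2
  | 6, 11, _, h1, h2 => exact q_6_11 h1 h2
  | 7, 8, _, h1, h2 => exact q_7_8 h1 h2
  | 7, 9, _, h1, h2 => exact q_7_9 h1 h2
  | 7, 10, _, h1, h2 => exact q_7_10 h1 h2
  | 7, 11, _, h1, h2 => exact q_7_11 h1 h2
  | 8, 9, _, h1, h2 => exact q_8_9 h1 h2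
  | 8, 10, _, h1, h2 => exact q_8_10 h1 h2
  | 8, 11, _, h1, h2 => exact q_8_11 h1 h2
  | 9, 10, _, h1, h2 => exact q_9_10 h1 h2
  | 9, 11, _, h1, h2 => exact q_9_11 h1 h2
  | 10, 11, _, h1, h2 => exact q_10_11 h1 h2
  | ⟨11, _⟩, ⟨j, hj⟩, hij, _, _ =>
    exfalso
    have := Fin.lt_def.1 hij
    simp at this
    omega

theorem pF_mem_of_ne {I : Ideal R} (i j : Fin 12) (hij : i ≠ j) (h1 : lf i ∈ I) (h2 : lf j ∈ I) :
    pF ∈ I ^ 3 := by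
  rcases lt_or_gt_of_ne hij with h | h
  · exact pF_mem_of_lt i j h h1 h2
  · exact pF_mem_of_lt j i h h2 h1

end

end R858SS
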