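import Pool.Agent.R858.SS.Defs
import Pool.Agent.R858.SS.Third

/-!
The arrangement of twelve planes in complex three-space and its basic properties.
-/

namespace R858SS

open MvPolynomial

noncomputable section

/-- integer coefficient vectors of the twelve linear forms
z, x - z, x + z, y - z, y + z, x, y, x - y, x + y, y - 2x, y + 2x, y - 3x -/
def fz : Fin 12 → Fin 3 → ℤ :=
  ![![0, 0, 1], ![1, 0, -1], ![1, 0, 1], ![0, 1, -1], ![0, 1, 1], ![1, 0, 0], ![0, 1, 0],
    ![1, -1, 0], ![1, 1, 0], ![-2, 1, 0], ![2, 1, 0], ![-3, 1, 0]]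

/-- the linear form with coefficients `v` -/
def linOf {l : ℕ} (v : Fin l → ℤ) : (Fin l → ℂ) →ₗ[ℂ] ℂ := ∑ k, (v k : ℂ) • LinearMap.proj k

/-- the plane defined by `v` -/
def hyp {l : ℕ} (v : Fin l → ℤ) : Submodule ℂ (Fin l → ℂ) := LinearMap.ker (linOf v)

lemma linOf_apply {l : ℕ} (v : Fin l → ℤ) (p : Fin l → ℂ) : linOf v p = ∑ k, (v k : ℂ) * p k := by
  simp [linOf]

lemma mem_hyp {l : ℕ} (v : Fin l → ℤ) (p : Fin l → ℂ) : p ∈ hyp v ↔ ∑ k, (v k : ℂ) * p k = 0 := by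
  rw [hyp, LinearMap.mem_ker, linOf_apply]

lemma mem_hyp_int {l : ℕ} (v : Fin l → ℤ) (p : Fin l → ℤ) :
    (fun k => (p k : ℂ)) ∈ hyp v ↔ ∑ k, v k * p k = 0 := by
  rw [mem_hyp]
  have : ∑ k, (v k : ℂ) * (p k : ℂ) = ((∑ k, v k * p k : ℤ) : ℂ) := by push_cast; rfl
  rw [this, Int.cast_eq_zero]

lemma linOf_ne {l : ℕ} (v : Fin l → ℤ) (hv : v ≠ 0) : linOf v ≠ 0 := by
  intro h
  apply hv
  funext k
  have h1 := LinearMap.congr_fun h (Pi.single k 1)
  rw [linOf_apply, LinearMap.zero_apply, Finset.sum_eq_single k] at h1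
  · simpa using h1
  · intro j _ hj; simp [hj]
  · simp

/-- a generic point on each of the planes -/
def wit : Fin 12 → Fin 3 → ℤ :=
  ![![-2, -1, 0], ![-2, -1, -2], ![-2, -1, 2], ![-2, -1, -1], ![-2, -1, 1], ![0, -2, -1],
    ![-2, 0, -1], ![-1, -1, -2], ![-1, 1, -2], ![-1, -2, -3], ![-1, 2, -3], ![-1, -3, -2]]

lemma wit_spec : ∀ i j : Fin 12, (∑ k, fz j k * wit i k = 0) ↔ i = j := by decide

lemma fz_ne (i : Fin 12) : fz i ≠ 0 := by
  revert i; decide

lemma hyp_fz_inj {i j : Fin 12} (h : hyp (fz i) = hyp (fz j)) : i = j := by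
  have h1 : (fun k => (wit i k : ℂ)) ∈ hyp (fz i) := (mem_hyp_int _ _).2 ((wit_spec i i).2 rfl)
  rw [h, mem_hyp_int] at h1
  exact (wit_spec i j).1 h1

open Classical in
/-- the arrangement of the twelve planes -/
def A12 : Finset (Submodule ℂ (Fin 3 → ℂ)) := Finset.univ.image fun i => hyp (fz i)

lemma mem_A12 {H : Submodule ℂ (Fin 3 → ℂ)} : H ∈ A12 ↔ ∃ i, hyp (fz i) = H := by
  simp [A12]

lemma card_A12 : A12.card = 12 := by
  classical
  rw [A12, Finset.card_image_of_injective _ (fun i j h => hyp_fz_inj h)]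
  simp

lemma isArr : IsArrangement A12 := by
  intro H hH
  obtain ⟨i, rfl⟩ := mem_A12.1 hH
  exact ⟨linOf (fz i), linOf_ne _ (fz_ne i), rfl⟩

lemma finrank_hyp {v : Fin 3 → ℤ} (hv : v ≠ 0) : Module.finrank ℂ (hyp v) = 2 := by
  have h := Module.Dual.finrank_ker_add_one_of_ne_zero (f := linOf v) (linOf_ne v hv)
  rw [Module.finrank_fin_fun] at h
  unfold hyp
  omega

lemma hyp_sup {i j : Fin 12} (hij : i ≠ j) : hyp (fz i) ⊔ hyp (fz j) = ⊤ := by
  have h1 : hyp (fz i) < hyp (fz i) ⊔ hyp (fz j) := by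
    apply lt_of_le_of_ne le_sup_left
    intro h
    have h2 : hyp (fz j) ≤ hyp (fz i) := by rw [h]; exact le_sup_right
    have h3 := Submodule.eq_of_le_of_finrank_eq h2
      (by rw [finrank_hyp (fz_ne i), finrank_hyp (fz_ne j)])
    exact hij (hyp_fz_inj h3).symm
  have h2 := Submodule.finrank_lt_finrank_of_lt h1
  rw [finrank_hyp (fz_ne i)] at h2
  apply Submodule.eq_top_of_finrank_eq
  have h3 := Submodule.finrank_le (hyp (fz i) ⊔ hyp (fz j))
  rw [Module.finrank_fin_fun] at h3 ⊢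
  omega

lemma finrank_inf {i j : Fin 12} (hij : i ≠ j) :
    Module.finrank ℂ (hyp (fz i) ⊓ hyp (fz j) : Submodule ℂ (Fin 3 → ℂ)) = 1 := by
  have h := Submodule.finrank_sup_add_finrank_inf_eq (hyp (fz i)) (hyp (fz j))
  rw [hyp_sup hij, finrank_top, Module.finrank_fin_fun, finrank_hyp (fz_ne i),
    finrank_hyp (fz_ne j)] at h
  omega

/-- the modular line `x = y = 0` -/
def O3 : Submodule ℂ (Fin 3 → ℂ) := hyp (fz 5) ⊓ hyp (fz 6)

lemma finrank_O : Module.finrank ℂ O3 = 1 := finrank_inf (by decide)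

/-- any two of the planes meet inside a plane through `O3` -/
def tbl : Fin 12 → Fin 12 → Fin 12 × ℤ × ℤ × ℤ := fun i j =>
  if 5 ≤ i then (i, 1, 0, 1) else if 5 ≤ j then (j, 0, 1, 1) else
    (![![(5, 0, 0, 0), (5, 1, 1, 1), (5, -1, 1, 1), (6, 1, 1, 1), (6, -1, 1, 1)],
      ![(5, 1, 1, 1), (5, 0, 0, 0), (5, 1, 1, 2), (7, 1, -1, 1), (8, 1, 1, 1)],
      ![(5, 1, -1, 1), (5, 1, 1, 2), (5, 0, 0, 0), (8, 1, 1, 1), (7, 1, -1, 1)],
      ![(6, 1, 1, 1), (7, -1, 1, 1), (8, 1, 1, 1), (6, 0, 0, 0), (6, 1, 1, 2)],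
      ![(6, 1, -1, 1), (8, 1, 1, 1), (7, -1, 1, 1), (6, 1, 1, 2), (6, 0, 0, 0)]] :
      Fin 5 → Fin 5 → Fin 12 × ℤ × ℤ × ℤ) (Fin.ofNat 5 i.val) (Fin.ofNat 5 j.val)

lemma tbl_spec : ∀ i j : Fin 12, i ≠ j → 5 ≤ (tbl i j).1 ∧ (tbl i j).2.2.2 ≠ 0 ∧
    ∀ t : Fin 3, (tbl i j).2.2.2 * fz (tbl i j).1 t =
      (tbl i j).2.1 * fz i t + (tbl i j).2.2.1 * fz j t := by decide

lemma hyp_le_of_comb {l : ℕ} {u v w : Fin l → ℤ} {a b c : ℤ} (hc : c ≠ 0)
    (h : ∀ t, c * w t = a * u t + b * v t) : hyp u ⊓ hyp v ≤ hyp w := by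
  rintro p ⟨hu, hv⟩
  have hu' := (mem_hyp _ _).1 hu
  have hv' := (mem_hyp _ _).1 hv
  rw [mem_hyp]
  have h1 : (c : ℂ) * ∑ k, (w k : ℂ) * p k = 0 := by
    have : (c : ℂ) * ∑ k, (w k : ℂ) * p k = (a : ℂ) * ∑ k, (u k : ℂ) * p k
        + (b : ℂ) * ∑ k, (v k : ℂ) * p k := by
      rw [Finset.mul_sum, Finset.mul_sum, Finset.mul_sum, ← Finset.sum_add_distrib]
      apply Finset.sum_congr rfl
      intro k _
      have e : (c : ℂ) * (w k : ℂ) = (a : ℂ) * (u k : ℂ) + (b : ℂ) * (v k : ℂ) := by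
        exact_mod_cast h k
      linear_combination p k * e
    rw [this, hu', hv']; simp
  rcases mul_eq_zero.1 h1 with h2 | h2
  · exact absurd (Int.cast_eq_zero.1 h2) hc
  · exact h2

lemma O_le {k : Fin 12} (hk : 5 ≤ k) : O3 ≤ hyp (fz k) := by
  refine hyp_le_of_comb (a := fz k 0) (b := fz k 1) (c := 1) one_ne_zero ?_
  revert k; decide

lemma exists_through {i j : Fin 12} (hij : i ≠ j) :
    ∃ k : Fin 12, O3 ≤ hyp (fz k) ∧ hyp (fz i) ⊓ hyp (fz j) ≤ hyp (fz k) := by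
  obtain ⟨h1, h2, h3⟩ := tbl_spec i j hij
  exact ⟨(tbl i j).1, O_le h1, hyp_le_of_comb h2 h3⟩

lemma O_mem : O3 ∈ flats A12 := by
  refine ⟨{hyp (fz 5), hyp (fz 6)}, ?_, by rw [sInf_pair, O3]⟩
  rintro H (rfl | rfl)
  · exact mem_A12.2 ⟨5, rfl⟩
  · exact mem_A12.2 ⟨6, rfl⟩

lemma hyp_mem (i : Fin 12) : hyp (fz i) ∈ flats A12 :=
  ⟨{hyp (fz i)}, by rintro H rfl; exact mem_A12.2 ⟨i, rfl⟩, by simp⟩

lemma O_inf_z : O3 ⊓ hyp (fz 0) = ⊥ := by
  rw [eq_bot_iff]
  rintro p ⟨⟨h5, h6⟩, h0⟩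
  have h5' := (mem_hyp _ _).1 h5
  have h6' := (mem_hyp _ _).1 h6
  have h0' := (mem_hyp _ _).1 h0
  simp [fz, Fin.sum_univ_three] at h5' h6' h0'
  rw [Submodule.mem_bot]
  funext k
  fin_cases k
  · exact h5'
  · exact h6'
  · exact h0'

lemma bot_mem : (⊥ : Submodule ℂ (Fin 3 → ℂ)) ∈ flats A12 := by
  rw [← O_inf_z]; exact inf_mem_flats O_mem (hyp_mem 0)

lemma modular_bot : IsModular A12 ⊥ :=
  isModular_of bot_mem fun _ hY => (flatMeet_le_right hY bot_le).trans le_sup_right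

lemma modular_hyp (i : Fin 12) : IsModular A12 (hyp (fz i)) := by
  refine isModular_of (hyp_mem i) fun Y hY => ?_
  by_cases h : Y ≤ hyp (fz i)
  · exact (flatMeet_le_left (hyp_mem i) h).trans le_sup_left
  · have h1 : hyp (fz i) < hyp (fz i) ⊔ Y := lt_of_le_of_ne le_sup_left
      fun e => h (by rw [e]; exact le_sup_right)
    have h2 := Submodule.finrank_lt_finrank_of_lt h1
    rw [finrank_hyp (fz_ne i)] at h2
    have h3 : hyp (fz i) ⊔ Y = ⊤ := by
      apply Submodule.eq_top_of_finrank_eq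
      have h3 := Submodule.finrank_le (hyp (fz i) ⊔ Y)
      rw [Module.finrank_fin_fun] at h3 ⊢
      omega
    rw [h3]; exact le_top

lemma modular_O : IsModular A12 O3 := by
  refine isModular_of O_mem fun Y hY => ?_
  by_cases h : O3 ≤ Y
  · exact (flatMeet_le_right hY h).trans le_sup_right
  obtain ⟨B, hB, rfl⟩ := hY
  have hH : ∃ H ∈ B, ¬ O3 ≤ H := by
    by_contra hcon
    push Not at hcon
    exact h (le_sInf hcon)
  obtain ⟨H, hHB, hOH⟩ := hH
  obtain ⟨i, rfl⟩ := mem_A12.1 (hB hHB)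
  by_cases hone : ∃ H' ∈ B, H' ≠ hyp (fz i)
  · obtain ⟨H', hH'B, hne⟩ := hone
    obtain ⟨j, rfl⟩ := mem_A12.1 (hB hH'B)
    have hij : i ≠ j := fun e => hne (by rw [e])
    have hYle : sInf B ≤ hyp (fz i) ⊓ hyp (fz j) := le_inf (sInf_le hHB) (sInf_le hH'B)
    have hd : Module.finrank ℂ (sInf B : Submodule ℂ (Fin 3 → ℂ)) ≤ 1 := by
      rw [← finrank_inf hij]; exact Submodule.finrank_mono hYle
    have hcases : Module.finrank ℂ (sInf B : Submodule ℂ (Fin 3 → ℂ)) = 0 ∨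
        Module.finrank ℂ (sInf B : Submodule ℂ (Fin 3 → ℂ)) = 1 := by omega
    rcases hcases with h0 | h1
    · have hb : sInf B = ⊥ := Submodule.finrank_eq_zero.1 h0
      rw [hb]
      have e5 : flatMeet A12 O3 ⊥ ≤ hyp (fz 5) :=
        sInf_le ⟨mem_A12.2 ⟨5, rfl⟩, inf_le_left, bot_le⟩
      have e6 : flatMeet A12 O3 ⊥ ≤ hyp (fz 6) :=
        sInf_le ⟨mem_A12.2 ⟨6, rfl⟩, inf_le_right, bot_le⟩
      exact (le_inf e5 e6).trans le_sup_left
    · have hYeq : sInf B = hyp (fz i) ⊓ hyp (fz j) :=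
        Submodule.eq_of_le_of_finrank_eq hYle (by rw [h1, finrank_inf hij])
      obtain ⟨k, hk1, hk2⟩ := exists_through hij
      have hle : flatMeet A12 O3 (sInf B) ≤ hyp (fz k) :=
        sInf_le ⟨mem_A12.2 ⟨k, rfl⟩, hk1, hYeq.le.trans hk2⟩
      have hsup : O3 ⊔ sInf B ≤ hyp (fz k) := sup_le hk1 (hYeq.le.trans hk2)
      have hlt : O3 ⊓ sInf B = ⊥ := by
        by_contra hne0
        have hp : 0 < Module.finrank ℂ (O3 ⊓ sInf B : Submodule ℂ (Fin 3 → ℂ)) := by
          rw [Nat.pos_iff_ne_zero]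
          intro e; exact hne0 (Submodule.finrank_eq_zero.1 e)
        have hle1 : O3 ⊓ sInf B = O3 := Submodule.eq_of_le_of_finrank_le inf_le_left
          (by rw [finrank_O]; exact hp)
        exact h (inf_eq_left.1 hle1)
      have hf := Submodule.finrank_sup_add_finrank_inf_eq O3 (sInf B)
      rw [hlt, finrank_bot, finrank_O, h1] at hf
      have heq : O3 ⊔ sInf B = hyp (fz k) :=
        Submodule.eq_of_le_of_finrank_eq hsup (by rw [finrank_hyp (fz_ne k)]; omega)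
      rw [heq]; exact hle
  · push Not at hone
    have hYeq : sInf B = hyp (fz i) :=
      le_antisymm (sInf_le hHB) (le_sInf fun H' hH' => (hone H' hH').ge)
    rw [hYeq]
    have h1 : hyp (fz i) < O3 ⊔ hyp (fz i) := lt_of_le_of_ne le_sup_right
      fun e => hOH (by rw [e]; exact le_sup_left)
    have h2 := Submodule.finrank_lt_finrank_of_lt h1
    rw [finrank_hyp (fz_ne i)] at h2
    have h3 : O3 ⊔ hyp (fz i) = ⊤ := by
      apply Submodule.eq_top_of_finrank_eq
      have h3 := Submodule.finrank_le (O3 ⊔ hyp (fz i))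
      rw [Module.finrank_fin_fun] at h3 ⊢
      omega
    rw [h3]; exact le_top

/-- the chain `⊤ > plane > line > ⊥` -/
def chain : Set (flats A12) :=
  {X | (X : Submodule ℂ (Fin 3 → ℂ)) = ⊤ ∨ (X : Submodule ℂ (Fin 3 → ℂ)) = hyp (fz 5) ∨
    (X : Submodule ℂ (Fin 3 → ℂ)) = O3 ∨ (X : Submodule ℂ (Fin 3 → ℂ)) = ⊥}

lemma O_le5 : O3 ≤ hyp (fz 5) := inf_le_left

lemma chain_of {X Y : Submodule ℂ (Fin 3 → ℂ)}
    (hX : X = ⊤ ∨ X = hyp (fz 5) ∨ X = O3 ∨ X = ⊥)
    (hY : Y = ⊤ ∨ Y = hyp (fz 5) ∨ Y = O3 ∨ Y = ⊥) : X ≤ Y ∨ Y ≤ X := by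
  have h := O_le5
  rcases hX with rfl | rfl | rfl | rfl <;> rcases hY with rfl | rfl | rfl | rfl <;> simp [h]

lemma mem_chain_of {X : Submodule ℂ (Fin 3 → ℂ)} (h1 : X ≤ O3 ∨ O3 ≤ X)
    (h2 : X ≤ hyp (fz 5) ∨ hyp (fz 5) ≤ X) :
    X = ⊤ ∨ X = hyp (fz 5) ∨ X = O3 ∨ X = ⊥ := by
  have hO := finrank_O
  have h5 := finrank_hyp (fz_ne 5)
  rcases h1 with h1 | h1
  · have hd := Submodule.finrank_mono h1
    rw [hO] at hd
    have : Module.finrank ℂ X = 0 ∨ Module.finrank ℂ X = 1 := by omega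
    rcases this with h | h
    · right; right; right; exact Submodule.finrank_eq_zero.1 h
    · right; right; left; exact Submodule.eq_of_le_of_finrank_eq h1 (by rw [h, hO])
  · rcases h2 with h2 | h2
    · have hd := Submodule.finrank_mono h1
      have hd2 := Submodule.finrank_mono h2
      rw [hO] at hd
      rw [h5] at hd2
      have : Module.finrank ℂ X = 1 ∨ Module.finrank ℂ X = 2 := by omega
      rcases this with h | h
      · right; right; left; exact (Submodule.eq_of_le_of_finrank_eq h1 (by rw [h, hO])).symm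
      · right; left; exact Submodule.eq_of_le_of_finrank_eq h2 (by rw [h, h5])
    · have hd := Submodule.finrank_mono h2
      have hd2 := Submodule.finrank_le X
      rw [h5] at hd
      rw [Module.finrank_fin_fun] at hd2
      have : Module.finrank ℂ X = 2 ∨ Module.finrank ℂ X = 3 := by omega
      rcases this with h | h
      · right; left; exact (Submodule.eq_of_le_of_finrank_eq h2 (by rw [h, h5])).symm
      · left; exact Submodule.eq_top_of_finrank_eq (by rw [h, Module.finrank_fin_fun])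

theorem supersolvable_A12 : IsSupersolvable A12 := by
  refine ⟨chain, ⟨?_, ?_⟩, ?_⟩
  · intro X hX Y hY _
    exact chain_of hX hY
  · intro t ht hct
    refine Set.Subset.antisymm hct fun X hX => ?_
    have hOt : (⟨O3, O_mem⟩ : flats A12) ∈ t := hct (Or.inr (Or.inr (Or.inl rfl)))
    have h5t : (⟨hyp (fz 5), hyp_mem 5⟩ : flats A12) ∈ t := hct (Or.inr (Or.inl rfl))
    have h1 : (X : Submodule ℂ (Fin 3 → ℂ)) ≤ O3 ∨ O3 ≤ (X : Submodule ℂ (Fin 3 → ℂ)) := by
      by_cases e : X = ⟨O3, O_mem⟩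
      · left; rw [e]
      · exact ht hX hOt e
    have h2 : (X : Submodule ℂ (Fin 3 → ℂ)) ≤ hyp (fz 5) ∨
        hyp (fz 5) ≤ (X : Submodule ℂ (Fin 3 → ℂ)) := by
      by_cases e : X = ⟨hyp (fz 5), hyp_mem 5⟩
      · left; rw [e]
      · exact ht hX h5t e
    exact mem_chain_of h1 h2
  · rintro ⟨X, hXm⟩ hX
    change IsModular A12 X
    have hX' : X = ⊤ ∨ X = hyp (fz 5) ∨ X = O3 ∨ X = ⊥ := hX
    rcases hX' with rfl | rfl | rfl | rfl
    · exact isModular_top A12
    · exact modular_hyp 5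
    · exact modular_O
    · exact modular_bot

lemma lf_eval (i : Fin 12) (p : Fin 3 → ℂ) : eval p (lf i) = ∑ k, (fz i k : ℂ) * p k := by
  fin_cases i <;> simp [lf, fz, px, py, pz, Fin.sum_univ_three] <;> ring

/-- the form `F` lies in the third symbolic power -/
theorem pF_mem_symbolic : pF ∈ symbolicPower A12 3 := by
  rw [symbolicPower, Submodule.mem_iInf]
  intro X
  rw [Submodule.mem_iInf]
  rintro ⟨H, hH, H', hH', hne, rfl⟩
  obtain ⟨i, rfl⟩ := mem_A12.1 hH
  obtain ⟨j, rfl⟩ := mem_A12.1 hH'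
  have hij : i ≠ j := fun e => hne (by rw [e])
  refine pF_mem_of_ne i j hij ?_ ?_
  · rw [idealOf, mem_vanishingIdeal_iff]
    rintro p ⟨hp, -⟩
    rw [aeval_eq_eval]
    change eval p (lf i) = 0
    rw [lf_eval]
    exact (mem_hyp _ _).1 hp
  · rw [idealOf, mem_vanishingIdeal_iff]
    rintro p ⟨-, hp⟩
    rw [aeval_eq_eval]
    change eval p (lf j) = 0
    rw [lf_eval]
    exact (mem_hyp _ _).1 hp

/-- elements of `J` vanish on the required points -/
theorem vanSing_of_mem {f : R} (hf : f ∈ J A12) : VanSing f := by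
  intro a b c hC hD
  have hi : ∃ i : Fin 12, i < 5 ∧ ![a, b, c] ∈ hyp (fz i) := by
    rw [evC] at hC
    have : c = 0 ∨ a - c = 0 ∨ a + c = 0 ∨ b - c = 0 ∨ b + c = 0 := by
      rcases mul_eq_zero.1 hC with h | h
      · rcases mul_eq_zero.1 h with h | h
        · exact Or.inl h
        · have : (a - c) * (a + c) = 0 := by linear_combination h
          rcases mul_eq_zero.1 this with h | h
          · exact Or.inr (Or.inl h)
          · exact Or.inr (Or.inr (Or.inl h))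
      · have : (b - c) * (b + c) = 0 := by linear_combination h
        rcases mul_eq_zero.1 this with h | h
        · exact Or.inr (Or.inr (Or.inr (Or.inl h)))
        · exact Or.inr (Or.inr (Or.inr (Or.inr h)))
    rcases this with h | h | h | h | h
    · exact ⟨0, by decide, (mem_hyp _ _).2 (by simpa [fz, Fin.sum_univ_three] using h)⟩
    · exact ⟨1, by decide, (mem_hyp _ _).2 (by
        simp [fz, Fin.sum_univ_three]; linear_combination h)⟩
    · exact ⟨2, by decide, (mem_hyp _ _).2 (by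
        simp [fz, Fin.sum_univ_three]; linear_combination h)⟩
    · exact ⟨3, by decide, (mem_hyp _ _).2 (by
        simp [fz, Fin.sum_univ_three]; linear_combination h)⟩
    · exact ⟨4, by decide, (mem_hyp _ _).2 (by
        simp [fz, Fin.sum_univ_three]; linear_combination h)⟩
  have hj : ∃ j : Fin 12, 5 ≤ j ∧ ![a, b, c] ∈ hyp (fz j) := by
    rw [evD] at hD
    have : a = 0 ∨ b = 0 ∨ a - b = 0 ∨ a + b = 0 ∨ b - 2 * a = 0 ∨ b + 2 * a = 0 ∨
        b - 3 * a = 0 := by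
      rcases mul_eq_zero.1 hD with h | h
      · rcases mul_eq_zero.1 h with h | h
        · rcases mul_eq_zero.1 h with h | h
          · exact Or.inl h
          · exact Or.inr (Or.inl h)
        · have : (a - b) * (a + b) = 0 := by linear_combination h
          rcases mul_eq_zero.1 this with h | h
          · exact Or.inr (Or.inr (Or.inl h))
          · exact Or.inr (Or.inr (Or.inr (Or.inl h)))
      · rcases mul_eq_zero.1 h with h | h
        · rcases mul_eq_zero.1 h with h | h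
          · exact Or.inr (Or.inr (Or.inr (Or.inr (Or.inl h))))
          · exact Or.inr (Or.inr (Or.inr (Or.inr (Or.inr (Or.inl h)))))
        · exact Or.inr (Or.inr (Or.inr (Or.inr (Or.inr (Or.inr h)))))
    rcases this with h | h | h | h | h | h | h
    · exact ⟨5, by decide, (mem_hyp _ _).2 (by
        simp [fz, Fin.sum_univ_three]; linear_combination h)⟩
    · exact ⟨6, by decide, (mem_hyp _ _).2 (by
        simp [fz, Fin.sum_univ_three]; linear_combination h)⟩
    · exact ⟨7, by decide, (mem_hyp _ _).2 (by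
        simp [fz, Fin.sum_univ_three]; linear_combination h)⟩
    · exact ⟨8, by decide, (mem_hyp _ _).2 (by
        simp [fz, Fin.sum_univ_three]; linear_combination h)⟩
    · exact ⟨9, by decide, (mem_hyp _ _).2 (by
        simp [fz, Fin.sum_univ_three]; linear_combination h)⟩
    · exact ⟨10, by decide, (mem_hyp _ _).2 (by
        simp [fz, Fin.sum_univ_three]; linear_combination h)⟩
    · exact ⟨11, by decide, (mem_hyp _ _).2 (by
        simp [fz, Fin.sum_univ_three]; linear_combination h)⟩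
  obtain ⟨i, hi5, hi⟩ := hi
  obtain ⟨j, hj5, hj⟩ := hj
  have hne : hyp (fz i) ≠ hyp (fz j) := by
    intro e
    have := hyp_fz_inj e
    rw [this] at hi5
    exact absurd hj5 (not_le.2 hi5)
  have hX : hyp (fz i) ⊓ hyp (fz j) ∈ L2 A12 :=
    ⟨_, mem_A12.2 ⟨i, rfl⟩, _, mem_A12.2 ⟨j, rfl⟩, hne, rfl⟩
  rw [J, Submodule.mem_iInf] at hf
  have h1 := hf (hyp (fz i) ⊓ hyp (fz j))
  rw [Submodule.mem_iInf] at h1
  have h2 := h1 hX
  rw [idealOf, mem_vanishingIdeal_iff] at h2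
  have h3 := h2 ![a, b, c] ⟨hi, hj⟩
  rw [aeval_eq_eval] at h3
  exact h3

theorem not_le : ¬ symbolicPower A12 3 ≤ J A12 ^ 2 := by
  intro h
  exact not_mem_sq (J A12) (fun f hf => inW_of_vanSing f (vanSing_of_mem hf)) (h pF_mem_symbolic)

end

end R858SS
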