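import Pool.Agent.R858.SS.Core

/-!
Every form vanishing on the singular points of the arrangement lies in (C) + E K.
-/

namespace R858SS

open MvPolynomial

noncomputable section

/-- restriction to the line spanned by (a, b, c) -/
def psi (a b c : ℂ) : R →ₐ[ℂ] Polynomial ℂ :=
  aeval ![Polynomial.C a * Polynomial.X, Polynomial.C b * Polynomial.X,
    Polynomial.C c * Polynomial.X]

lemma psi_x (a b c : ℂ) : psi a b c px = Polynomial.C a * Polynomial.X := by
  simp [psi, px]
lemma psi_y (a b c : ℂ) : psi a b c py = Polynomial.C b * Polynomial.X := by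
  simp [psi, py]
lemma psi_z (a b c : ℂ) : psi a b c pz = Polynomial.C c * Polynomial.X := by
  simp [psi, pz]

lemma eval_psi (a b c t : ℂ) (f : R) :
    Polynomial.eval t (psi a b c f) = eval ![a * t, b * t, c * t] f := by
  have : ((Polynomial.aeval t).comp (psi a b c) : R →ₐ[ℂ] ℂ) = aeval ![a * t, b * t, c * t] := by
    apply MvPolynomial.algHom_ext
    intro i
    fin_cases i <;> simp [psi]
  have h := DFunLike.congr_fun this f
  simpa [Polynomial.coe_aeval_eq_eval, MvPolynomial.aeval_eq_eval] using h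

lemma mem_pair {a b c : ℂ} {h k w : R} (h0 : px - C a * w ∈ Ideal.span {h, k})
    (h1 : py - C b * w ∈ Ideal.span {h, k}) (h2 : pz - C c * w ∈ Ideal.span {h, k})
    {f : R} (hf : psi a b c f = 0) : f ∈ Ideal.span {h, k} := by
  set I := Ideal.span {h, k} with hI
  have key : (Ideal.Quotient.mkₐ ℂ I : R →ₐ[ℂ] R ⧸ I) =
      (Polynomial.aeval (Ideal.Quotient.mkₐ ℂ I w)).comp (psi a b c) := by
    apply MvPolynomial.algHom_ext
    intro i
    have e0 : Ideal.Quotient.mkₐ ℂ I px = Ideal.Quotient.mkₐ ℂ I (C a * w) := by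
      rw [Ideal.Quotient.mkₐ_eq_mk]; exact (Ideal.Quotient.mk_eq_mk_iff_sub_mem _ _).2 h0
    have e1 : Ideal.Quotient.mkₐ ℂ I py = Ideal.Quotient.mkₐ ℂ I (C b * w) := by
      rw [Ideal.Quotient.mkₐ_eq_mk]; exact (Ideal.Quotient.mk_eq_mk_iff_sub_mem _ _).2 h1
    have e2 : Ideal.Quotient.mkₐ ℂ I pz = Ideal.Quotient.mkₐ ℂ I (C c * w) := by
      rw [Ideal.Quotient.mkₐ_eq_mk]; exact (Ideal.Quotient.mk_eq_mk_iff_sub_mem _ _).2 h2
    have hC : ∀ r : ℂ, (C r : R) = algebraMap ℂ R r := fun r => rfl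
    fin_cases i
    · change Ideal.Quotient.mkₐ ℂ I px = _
      rw [e0]
      change _ = Polynomial.aeval _ (psi a b c px)
      rw [psi_x]
      simp only [map_mul, Polynomial.aeval_C, Polynomial.aeval_X, hC, AlgHom.commutes]
    · change Ideal.Quotient.mkₐ ℂ I py = _
      rw [e1]
      change _ = Polynomial.aeval _ (psi a b c py)
      rw [psi_y]
      simp only [map_mul, Polynomial.aeval_C, Polynomial.aeval_X, hC, AlgHom.commutes]
    · change Ideal.Quotient.mkₐ ℂ I pz = _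
      rw [e2]
      change _ = Polynomial.aeval _ (psi a b c pz)
      rw [psi_z]
      simp only [map_mul, Polynomial.aeval_C, Polynomial.aeval_X, hC, AlgHom.commutes]
  have h3 := DFunLike.congr_fun key f
  simp only [AlgHom.comp_apply, hf, map_zero] at h3
  rw [Ideal.Quotient.mkₐ_eq_mk] at h3
  exact Ideal.Quotient.eq_zero_iff_mem.1 h3

/-- one more point on the line `h = 0` -/
lemma step {a b c : ℂ} {h k w P g A B : R} (hg : g = A * P + B * h)
    (h0 : px - C a * w ∈ Ideal.span {h, k})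
    (h1 : py - C b * w ∈ Ideal.span {h, k}) (h2 : pz - C c * w ∈ Ideal.span {h, k})
    (hh : psi a b c h = 0) (hP : eval ![a, b, c] P ≠ 0) (hv : psi a b c g = 0) :
    ∃ A' B', g = A' * (P * k) + B' * h := by
  have hA : psi a b c A = 0 := by
    have e := hv
    rw [hg, map_add, map_mul, map_mul, hh, mul_zero, add_zero] at e
    rcases mul_eq_zero.1 e with e | e
    · exact e
    · exfalso
      apply hP
      have := eval_psi a b c 1 P
      rw [e, Polynomial.eval_zero] at this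
      simpa using this.symm
  obtain ⟨u, v, huv⟩ := Ideal.mem_span_pair.1 (mem_pair h0 h1 h2 hA)
  refine ⟨v, u * P + B, ?_⟩
  rw [hg, ← huv]
  ring

lemma C_two : (C 2 : R) = 2 := map_ofNat _ 2
lemma C_three : (C 3 : R) = 3 := map_ofNat _ 3

/-- the product of the seven forms through (0:0:1) -/
def pD : R := px * py * (px ^ 2 - py ^ 2) * pE

/-- vanishing on the singular points lying on the five lines of C -/
def VanSing (f : R) : Prop := ∀ a b c : ℂ, eval ![a, b, c] pC = 0 → eval ![a, b, c] pD = 0 →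
  eval ![a, b, c] f = 0

lemma evC (a b c : ℂ) : eval ![a, b, c] pC = c * (a ^ 2 - c ^ 2) * (b ^ 2 - c ^ 2) := by
  simp [pC, px, py, pz]
lemma evE (a b c : ℂ) : eval ![a, b, c] pE = (b - 2 * a) * (b + 2 * a) * (b - 3 * a) := by
  simp [pE, px, py]
lemma evD (a b c : ℂ) : eval ![a, b, c] pD =
    a * b * (a ^ 2 - b ^ 2) * ((b - 2 * a) * (b + 2 * a) * (b - 3 * a)) := by
  simp [pD, px, py, pE]

lemma VanSing.psi {f : R} (hf : VanSing f) (a b c : ℂ)
    (h1 : c * (a ^ 2 - c ^ 2) * (b ^ 2 - c ^ 2) = 0)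
    (h2 : a * b * (a ^ 2 - b ^ 2) * ((b - 2 * a) * (b + 2 * a) * (b - 3 * a)) = 0) :
    psi a b c f = 0 := by
  apply Polynomial.funext
  intro t
  rw [eval_psi, Polynomial.eval_zero]
  apply hf
  · rw [evC]; linear_combination t ^ 5 * h1
  · rw [evD]; linear_combination t ^ 7 * h2

/-- the line z = 0 -/
theorem step_z (f : R) (hf : VanSing f) : ∃ A B, f = A * pD + B * pz := by
  have h0 : f = f * 1 + 0 * pz := by ring
  have hz : ∀ a b : ℂ, psi a b 0 pz = 0 := by intro a b; simp [psi_z]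
  obtain ⟨A1, B1, h1⟩ := step (a := 0) (b := 1) (c := 0) (k := px) (w := py) h0
    (Ideal.mem_span_pair.2 ⟨0, 1, by simp⟩) (Ideal.mem_span_pair.2 ⟨0, 0, by simp⟩)
    (Ideal.mem_span_pair.2 ⟨1, 0, by simp⟩) (hz _ _) (by simp)
    (hf.psi _ _ _ (by norm_num) (by norm_num))
  have hs : ∀ (s : ℂ) (k P : R), k = py - C s * px →
      (s * (1 - s ^ 2) * ((s - 2) * (s + 2) * (s - 3)) = 0) →
      eval ![1, s, 0] P ≠ 0 → (∃ A B, f = A * P + B * pz) → ∃ A B, f = A * (P * k) + B * pz := by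
    rintro s k P rfl hs hP ⟨A, B, hAB⟩
    exact step (a := 1) (b := s) (c := 0) (w := px) hAB
      (Ideal.mem_span_pair.2 ⟨0, 0, by simp⟩) (Ideal.mem_span_pair.2 ⟨0, 1, by simp⟩)
      (Ideal.mem_span_pair.2 ⟨1, 0, by simp⟩) (hz _ _) hP
      (hf.psi _ _ _ (by ring) (by linear_combination hs))
  have g1 := hs 0 py (1 * px) (by simp) (by norm_num) (by simp [px]) ⟨_, _, h1⟩
  have g2 := hs 1 (py - px) _ (by simp) (by norm_num) (by simp [px, py]; try norm_num) g1
  have g3 := hs (-1) (py + px) _ (by simp) (by norm_num) (by simp [px, py]; try norm_num) g2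
  have g4 := hs 2 (py - 2 * px) _ (by simp [C_two]) (by norm_num) (by simp [px, py]; try norm_num) g3
  have g5 := hs (-2) (py + 2 * px) _ (by simp [C_two]) (by norm_num) (by simp [px, py]; try norm_num) g4
  obtain ⟨A, B, hAB⟩ :=
    hs 3 (py - 3 * px) _ (by simp [C_three]) (by norm_num) (by simp [px, py]; try norm_num) g5
  refine ⟨-A, B, ?_⟩
  rw [hAB, pD, pE]
  ring

/-- the lines x = c z -/
theorem step_x (c : ℂ) (hc : c ^ 2 = 1) (f : R) (hf : ∀ s : ℂ,
    (s * (1 - s ^ 2) * ((s - 2) * (s + 2) * (s - 3)) = 0) → psi c (c * s) 1 f = 0) :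
    ∃ A B, f = A * (py * (py ^ 2 - pz ^ 2) * pE) + B * (px - C c * pz) := by
  have h0 : ∃ A B, f = A * 1 + B * (px - C c * pz) := ⟨f, 0, by ring⟩
  have hc0 : c ≠ 0 := by rintro rfl; norm_num at hc
  have hs : ∀ (s : ℂ) (k P : R), k = py - C s * px →
      (s * (1 - s ^ 2) * ((s - 2) * (s + 2) * (s - 3)) = 0) →
      eval ![c, c * s, 1] P ≠ 0 → (∃ A B, f = A * P + B * (px - C c * pz)) →
      ∃ A B, f = A * (P * k) + B * (px - C c * pz) := by
    rintro s k P rfl hs hP ⟨A, B, hAB⟩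
    refine step (a := c) (b := c * s) (c := 1) (w := pz) hAB
      (Ideal.mem_span_pair.2 ⟨1, 0, by ring⟩)
      (Ideal.mem_span_pair.2 ⟨C s, 1, by rw [C_mul]; ring⟩)
      (Ideal.mem_span_pair.2 ⟨0, 0, by simp⟩) ?_ hP (hf s hs)
    have hCc : ((C c : R)) = algebraMap ℂ R c := rfl
    rw [map_sub, map_mul, hCc, AlgHom.commutes, psi_x, psi_z]
    simp
  have g0 := hs 0 py _ (by simp) (by norm_num) (by simp) h0
  have g2 := hs 1 (py - px) _ (by simp) (by norm_num)
    (by simp [py, hc0]) g0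
  have g3 := hs (-1) (py + px) _ (by simp) (by norm_num)
    (by simp [px, py]; ring_nf; simp [hc0]) g2
  have g4 := hs 2 (py - 2 * px) _ (by simp [C_two]) (by norm_num)
    (by simp [px, py]; ring_nf; simp [hc0]) g3
  have g5 := hs (-2) (py + 2 * px) _ (by simp [C_two]) (by norm_num)
    (by simp [px, py]; ring_nf; simp [hc0]) g4
  obtain ⟨A, B, hAB⟩ :=
    hs 3 (py - 3 * px) _ (by simp [C_three]) (by norm_num) (by simp [px, py]; ring_nf; simp [hc0]) g5
  have hC2 : (C c : R) ^ 2 = 1 := by rw [← C_pow, hc, C_1]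
  refine ⟨A, B - A * py * pE * (px + C c * pz), ?_⟩
  rw [hAB, pE]
  linear_combination (-A * py * ((py - 2 * px) * (py + 2 * px) * (py - 3 * px)) * pz ^ 2) * hC2

/-- the lines y = c z, excluding the points with x = z or x = -z -/
theorem step_y (c : ℂ) (hc : c ^ 2 = 1) (f : R) (h00 : psi 0 c 1 f = 0) (hf : ∀ s : ℂ, s ≠ 0 →
    (((s - 2) * (s + 2) * (s - 3)) = 0) → psi (c * s⁻¹) c 1 f = 0) :
    ∃ A B, f = A * (px * pE) + B * (py - C c * pz) := by
  have h0 : f = f * 1 + 0 * (py - C c * pz) := by ring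
  have hc0 : c ≠ 0 := by rintro rfl; norm_num at hc
  have hv : ∀ a : ℂ, psi a c 1 (py - C c * pz) = 0 := by
    intro a
    have hCc : ((C c : R)) = algebraMap ℂ R c := rfl
    rw [map_sub, map_mul, hCc, AlgHom.commutes, psi_y, psi_z]
    simp
  have g0 := step (a := 0) (b := c) (c := 1) (k := px) (w := pz) h0
    (Ideal.mem_span_pair.2 ⟨0, 1, by simp⟩) (Ideal.mem_span_pair.2 ⟨1, 0, by ring⟩)
    (Ideal.mem_span_pair.2 ⟨0, 0, by simp⟩) (hv _) (by simp) h00
  have hs : ∀ (s : ℂ) (k P : R), k = py - C s * px → s ≠ 0 →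
      (((s - 2) * (s + 2) * (s - 3)) = 0) →
      eval ![c * s⁻¹, c, 1] P ≠ 0 → (∃ A B, f = A * P + B * (py - C c * pz)) →
      ∃ A B, f = A * (P * k) + B * (py - C c * pz) := by
    rintro s k P rfl hs0 hs hP ⟨A, B, hAB⟩
    have e : (C s : R) * C s⁻¹ = 1 := by rw [← C_mul, mul_inv_cancel₀ hs0, C_1]
    refine step (a := c * s⁻¹) (b := c) (c := 1) (w := pz) hAB
      (Ideal.mem_span_pair.2 ⟨C s⁻¹, - C s⁻¹, ?_⟩)
      (Ideal.mem_span_pair.2 ⟨1, 0, by ring⟩)
      (Ideal.mem_span_pair.2 ⟨0, 0, by simp⟩) (hv _) hP (hf s hs0 hs)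
    rw [C_mul]
    linear_combination px * e
  have g4 := hs 2 (py - 2 * px) _ (by simp [C_two]) (by norm_num) (by norm_num)
    (by simp [px, hc0]) g0
  have g5 := hs (-2) (py + 2 * px) _ (by simp [C_two]) (by norm_num) (by norm_num)
    (by simp [px, py, hc0]; ring_nf; simp [hc0]) g4
  obtain ⟨A, B, hAB⟩ :=
    hs 3 (py - 3 * px) _ (by simp [C_three]) (by norm_num) (by norm_num)
      (by simp [px, py, hc0]; ring_nf; simp [hc0]) g5
  refine ⟨A, B, ?_⟩
  rw [hAB, pE]
  ring

/-- division by a factor not vanishing on the line -/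
lemma div_step {a b : ℂ} {g P h A B : R} (hg : g = A * P + B * h) (h1 : psi a b 1 g = 0)
    (h2 : psi a b 1 P = 0) (h3 : eval ![a, b, 1] h ≠ 0) : psi a b 1 B = 0 := by
  rw [hg, map_add, map_mul, h2, mul_zero, zero_add, map_mul] at h1
  rcases mul_eq_zero.1 h1 with e | e
  · exact e
  · exfalso
    apply h3
    have := congrArg (Polynomial.eval 1) e
    rw [eval_psi] at this
    simpa using this

lemma psi_D (a b : ℂ)
    (h : a * b * (a ^ 2 - b ^ 2) * ((b - 2 * a) * (b + 2 * a) * (b - 3 * a)) = 0) :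
    psi a b 1 pD = 0 := by
  apply Polynomial.funext
  intro t
  rw [eval_psi, Polynomial.eval_zero, evD]
  linear_combination t ^ 7 * h

lemma psi_Y (a b : ℂ) (h : b * (b ^ 2 - 1) * ((b - 2 * a) * (b + 2 * a) * (b - 3 * a)) = 0) :
    psi a b 1 (py * (py ^ 2 - pz ^ 2) * pE) = 0 := by
  apply Polynomial.funext
  intro t
  rw [eval_psi, Polynomial.eval_zero, map_mul, evE]
  simp only [py, pz, map_mul, map_sub, map_pow, eval_X, Matrix.cons_val_one, Matrix.cons_val]
  linear_combination t ^ 6 * h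

lemma psi_X (a b : ℂ) (h : a * ((b - 2 * a) * (b + 2 * a) * (b - 3 * a)) = 0) :
    psi a b 1 (px * pE) = 0 := by
  apply Polynomial.funext
  intro t
  rw [eval_psi, Polynomial.eval_zero, map_mul, evE]
  simp only [px, eval_X, Matrix.cons_val_zero]
  linear_combination t ^ 4 * h

lemma ev_h1 (a b c d : ℂ) : eval ![a, b, c] (px - C d * pz) = a - d * c := by simp [px, pz]
lemma ev_h2 (a b c d : ℂ) : eval ![a, b, c] (py - C d * pz) = b - d * c := by simp [py, pz]

/-- the containment of the ideal of the singular points in (C) + E K -/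
theorem inW_of_vanSing (f : R) (hf : VanSing f) : InW f := by
  obtain ⟨A0, f2, h1⟩ := step_z f hf
  have v2 : ∀ a b : ℂ, (a ^ 2 - 1) * (b ^ 2 - 1) = 0 →
      a * b * (a ^ 2 - b ^ 2) * ((b - 2 * a) * (b + 2 * a) * (b - 3 * a)) = 0 →
      psi a b 1 f2 = 0 := by
    intro a b hab hD
    exact div_step h1 (hf.psi a b 1 (by linear_combination hab) hD) (psi_D a b hD) (by simp [pz])
  -- the line x = z
  obtain ⟨A1, f3, h2⟩ := step_x 1 (by norm_num) f2 (fun s hs => v2 _ _ (by ring)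
    (by linear_combination hs))
  -- the line x = -z
  obtain ⟨A2, f4, h3⟩ := step_x (-1) (by norm_num) f3 (fun s hs => by
    refine div_step h2 (v2 _ _ (by ring) (by linear_combination -hs))
      (psi_Y _ _ (by linear_combination -hs)) ?_
    rw [ev_h1]; norm_num)
  have v4 : ∀ a b : ℂ, a ^ 2 - 1 ≠ 0 → b ^ 2 - 1 = 0 →
      a * ((b - 2 * a) * (b + 2 * a) * (b - 3 * a)) = 0 → psi a b 1 f4 = 0 := by
    intro a b ha hb hX
    have e2 := v2 a b (by rw [hb, mul_zero]) (by linear_combination b * (a ^ 2 - b ^ 2) * hX)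
    have ha1 : a ≠ 1 := by rintro rfl; norm_num at ha
    have ha2 : a ≠ -1 := by rintro rfl; norm_num at ha
    have e3 : psi a b 1 f3 = 0 := by
      refine div_step h2 e2 (psi_Y _ _ (by rw [hb]; ring)) ?_
      rw [ev_h1]; intro e; exact ha1 (by linear_combination e)
    refine div_step h3 e3 (psi_Y _ _ (by rw [hb]; ring)) ?_
    rw [ev_h1]; intro e; exact ha2 (by linear_combination e)
  have hsl : ∀ s : ℂ, s ≠ 0 → (s - 2) * (s + 2) * (s - 3) = 0 → ((s⁻¹) ^ 2 - 1 ≠ 0) := by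
    intro s hs0 hs
    have h' : s = 2 ∨ s = -2 ∨ s = 3 := by
      rcases mul_eq_zero.1 hs with h | h
      · rcases mul_eq_zero.1 h with h | h
        · exact Or.inl (by linear_combination h)
        · exact Or.inr (Or.inl (by linear_combination h))
      · exact Or.inr (Or.inr (by linear_combination h))
    rcases h' with rfl | rfl | rfl <;> norm_num
  have hinv : ∀ s : ℂ, s ≠ 0 → (s - 2) * (s + 2) * (s - 3) = 0 →
      (1 - 2 * s⁻¹) * (1 + 2 * s⁻¹) * (1 - 3 * s⁻¹) = 0 := by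
    intro s hs0 hs
    have h3 : s⁻¹ * s = 1 := inv_mul_cancel₀ hs0
    have : (s⁻¹ * s - 2 * s⁻¹) * (s⁻¹ * s + 2 * s⁻¹) * (s⁻¹ * s - 3 * s⁻¹) = 0 := by
      linear_combination (s⁻¹) ^ 3 * hs
    rwa [h3] at this
  -- the line y = z
  obtain ⟨A3, f5, h4⟩ := step_y 1 (by norm_num) f4 (v4 0 1 (by norm_num) (by norm_num) (by ring))
    (fun s hs0 hs => by
      have := hinv s hs0 hs
      refine v4 _ _ ?_ (by norm_num) (by linear_combination s⁻¹ * this)
      rw [one_mul]; exact hsl s hs0 hs)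
  -- the line y = -z
  obtain ⟨A4, f6, h5⟩ := step_y (-1) (by norm_num) f5
    (by
      refine div_step h4 (v4 0 (-1) (by norm_num) (by norm_num) (by ring)) (psi_X _ _ (by ring)) ?_
      rw [ev_h2]; norm_num)
    (fun s hs0 hs => by
      have := hinv s hs0 hs
      refine div_step h4 (v4 _ _ ?_ (by norm_num) (by linear_combination s⁻¹ * this))
        (psi_X _ _ (by linear_combination s⁻¹ * this)) ?_
      · have e := hsl s hs0 hs
        intro e'; apply e; linear_combination e'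
      · rw [ev_h2]; norm_num)
  refine ⟨f6, A1 + A2 * (px - pz), A3 + A4 * (py - pz), A0, ?_⟩
  rw [h1, h2, h3, h4, h5]
  simp only [pD, pC, m1, m2, m3, C_neg, C_1]
  ring

end

end R858SS
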