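import Mathlib

/-!
Algebraic core for the supersolvable counterexample: the arrangement of the twelve
planes z, x - z, x + z, y - z, y + z, x, y, x - y, x + y, y - 2x, y + 2x, y - 3x.
-/

namespace R858SS

open MvPolynomial

abbrev R := MvPolynomial (Fin 3) ℂ

noncomputable section

def px : R := X 0
def py : R := X 1
def pz : R := X 2

/-- the product of the five forms not through (0:0:1) -/
def pC : R := pz * (px ^ 2 - pz ^ 2) * (py ^ 2 - pz ^ 2)
/-- the product of the three additional forms -/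
def pE : R := (py - 2 * px) * (py + 2 * px) * (py - 3 * px)
def m1 : R := py * pz * (py ^ 2 - pz ^ 2)
def m2 : R := px * pz * (px ^ 2 - pz ^ 2)
def m3 : R := px * py * (px ^ 2 - py ^ 2)
def pG4 : R := (px ^ 2 - py ^ 2) ^ 2 + pz ^ 2 * (px ^ 2 + py ^ 2 - 2 * pz ^ 2)
def pF2 : R := pE * pG4 + 3 * pz * (12 * px + py) * pC
/-- the form of degree 15 in the third symbolic power -/
def pF : R := pC * pE * pF2

lemma homx : px.IsHomogeneous 1 := isHomogeneous_X _ _
lemma homy : py.IsHomogeneous 1 := isHomogeneous_X _ _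
lemma homz : pz.IsHomogeneous 1 := isHomogeneous_X _ _

lemma hom_nat (n : ℕ) {p : R} {k : ℕ} (h : p.IsHomogeneous k) :
    ((OfNat.ofNat (n+2) : R) * p).IsHomogeneous k := by
  rw [← map_ofNat (C : ℂ →+* R) (n + 2)]
  exact h.C_mul _

lemma homC : pC.IsHomogeneous 5 :=
  (homz.mul ((homx.pow 2).sub (homz.pow 2))).mul ((homy.pow 2).sub (homz.pow 2))

lemma homE : pE.IsHomogeneous 3 :=
  ((homy.sub (hom_nat 0 homx)).mul (homy.add (hom_nat 0 homx))).mul (homy.sub (hom_nat 1 homx))

lemma homm1 : m1.IsHomogeneous 4 := (homy.mul homz).mul ((homy.pow 2).sub (homz.pow 2))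
lemma homm2 : m2.IsHomogeneous 4 := (homx.mul homz).mul ((homx.pow 2).sub (homz.pow 2))
lemma homm3 : m3.IsHomogeneous 4 := (homx.mul homy).mul ((homx.pow 2).sub (homy.pow 2))

lemma homG4 : pG4.IsHomogeneous 4 :=
  (((homx.pow 2).sub (homy.pow 2)).pow 2).add
    ((homz.pow 2).mul (((homx.pow 2).add (homy.pow 2)).sub (hom_nat 0 (homz.pow 2))))

lemma homF2 : pF2.IsHomogeneous 7 :=
  (homE.mul homG4).add (((hom_nat 1 homz).mul ((hom_nat 10 homx).add homy)).mul homC)

lemma homF : pF.IsHomogeneous 15 := (homC.mul homE).mul homF2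

/-- extraction of homogeneous components from a product with a homogeneous factor -/
lemma homComp_mul {n : ℕ} {p : R} (hp : p.IsHomogeneous n) (k : ℕ) (q : R) :
    homogeneousComponent (n + k) (p * q) = p * homogeneousComponent k q := by
  classical
  conv_lhs => rw [← sum_homogeneousComponent q, Finset.mul_sum, map_sum]
  have : ∀ i ∈ Finset.range (q.totalDegree + 1),
      homogeneousComponent (n + k) (p * homogeneousComponent i q) =
        if i = k then p * homogeneousComponent k q else 0 := by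
    intro i _
    have h1 : (p * homogeneousComponent i q).IsHomogeneous (n + i) :=
      hp.mul (homogeneousComponent_isHomogeneous i q)
    rw [homogeneousComponent_of_mem h1]
    by_cases h : i = k
    · subst h; simp
    · have : ¬ (n + k = n + i) := by omega
      have : ¬ (n + i = n + k) := by omega
      simp [h]
      try omega
  rw [Finset.sum_congr rfl this, Finset.sum_ite_eq']
  by_cases hk : k ∈ Finset.range (q.totalDegree + 1)
  · simp [hk]
  · rw [if_neg hk]
    have : q.totalDegree < k := by simpa using hk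
    rw [homogeneousComponent_eq_zero _ _ this, mul_zero]

lemma linear_form {g : R} (hg : g.IsHomogeneous 1) :
    ∃ a b c : ℂ, g = C a * px + C b * py + C c * pz := by
  have h : g ∈ homogeneousSubmodule (Fin 3) ℂ 1 := hg
  rw [homogeneousSubmodule_one_eq_span_X, Submodule.mem_span_range_iff_exists_fun] at h
  obtain ⟨c, hc⟩ := h
  refine ⟨c 0, c 1, c 2, ?_⟩
  rw [← hc, Fin.sum_univ_three]
  simp [px, py, pz, MvPolynomial.smul_eq_C_mul]

lemma pC_ne : pC ≠ 0 := by
  intro h
  have := congrArg (eval ![2, 3, 1]) h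
  simp only [pC, px, py, pz, map_sub, map_mul, map_pow, map_zero,
    eval_X, Matrix.cons_val_zero, Matrix.cons_val_one, Matrix.cons_val] at this
  norm_num at this

theorem not_form_lin (A b1 b2 b3 : R) (a11 c11 d11 a12 c12 d12 a13 c13 d13 a22 c22 d22
    a23 c23 d23 a33 c33 d33 : ℂ)
    (h : pF = pC ^ 2 * A + pC * pE * (b1 * m1 + b2 * m2 + b3 * m3) +
      pE ^ 2 * ((C a11 * px + C c11 * py + C d11 * pz) * m1 ^ 2
        + (C a12 * px + C c12 * py + C d12 * pz) * (m1 * m2)
        + (C a13 * px + C c13 * py + C d13 * pz) * (m1 * m3)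
        + (C a22 * px + C c22 * py + C d22 * pz) * m2 ^ 2
        + (C a23 * px + C c23 * py + C d23 * pz) * (m2 * m3)
        + (C a33 * px + C c33 * py + C d33 * pz) * m3 ^ 2)) : False := by
  have ev : ∀ a b c : ℂ, _ := fun a b c => congrArg (eval ![a, b, c]) h
  simp only [pF, pF2, pG4, pE, pC, m1, m2, m3, px, py, pz, map_add, map_sub, map_mul, map_pow,
    eval_X, eval_C, map_ofNat, Matrix.cons_val_zero, Matrix.cons_val_one, Matrix.cons_val] at ev
  have e1 : a33 + 4 * c33 = 0 := by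
    have k := ev 1 4 0
    linear_combination (-1 / 518400 : ℂ) * k
  have e2 : a33 + 5 * c33 = 0 := by
    have k := ev 1 5 0
    linear_combination (-1 / 25401600 : ℂ) * k
  have e3 : (a11 + 4 * c11 + d11) - (a13 + 4 * c13 + d13) + (a33 + 4 * c33 + d33) = 0 := by
    have k := ev 1 4 1
    linear_combination (-1 / 518400 : ℂ) * k
  have e4 : (a11 + 5 * c11 + d11) - (a13 + 5 * c13 + d13) + (a33 + 5 * c33 + d33) = 0 := by
    have k := ev 1 5 1
    linear_combination (-1 / 25401600 : ℂ) * k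
  have e5 : (-a11 + 4 * c11 + d11) + (-a13 + 4 * c13 + d13) + (-a33 + 4 * c33 + d33) = 0 := by
    have k := ev (-1) 4 1
    linear_combination (-1 / 25401600 : ℂ) * k
  have e6 : (-a11 + 5 * c11 + d11) + (-a13 + 5 * c13 + d13) + (-a33 + 5 * c33 + d33) = 0 := by
    have k := ev (-1) 5 1
    linear_combination (-1 / 406425600 : ℂ) * k
  have e7 : (4 * a22 + c22 + d22) + (4 * a23 + c23 + d23) + (4 * a33 + c33 + d33) = 0 := by
    have k := ev 4 1 1
    linear_combination (-1 / 1728896400 : ℂ) * k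
  have e8 : (5 * a22 + c22 + d22) + (5 * a23 + c23 + d23) + (5 * a33 + c33 + d33) = 0 := by
    have k := ev 5 1 1
    linear_combination (-1 / 27662342400 : ℂ) * k
  have e9 : (4 * a22 - c22 + d22) - (4 * a23 - c23 + d23) + (4 * a33 - c33 + d33) = 0 := by
    have k := ev 4 (-1) 1
    linear_combination (-1 / 2414739600 : ℂ) * k
  have e10 : (5 * a22 - c22 + d22) - (5 * a23 - c23 + d23) + (5 * a33 - c33 + d33) = 0 := by
    have k := ev 5 (-1) 1
    linear_combination (-1 / 36130406400 : ℂ) * k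
  clear ev
  have hc33 : c33 = 0 := by linear_combination e2 - e1
  have ha33 : a33 = 0 := by linear_combination 5 * e1 - 4 * e2
  have hc11 : c11 = 0 := by linear_combination (e4 - e3) / 2 + (e6 - e5) / 2 - hc33
  have hc13 : c13 = 0 := by linear_combination (e3 - e4) / 2 + (e6 - e5) / 2
  have ha13 : a13 = d11 + d33 := by
    linear_combination (- e3 - e5) / 2 + 4 * hc11 + 4 * hc33
  have ha11 : a11 = d13 := by
    linear_combination (e3 - e5) / 2 + 4 * hc13 - ha33
  have ha22 : a22 = 0 := by linear_combination (e8 - e7) / 2 + (e10 - e9) / 2 - ha33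
  have ha23 : a23 = 0 := by linear_combination (e8 - e7) / 2 - (e10 - e9) / 2
  have hc23 : c23 = -(d22 + d33) := by
    linear_combination (e7 + e9) / 2 - 4 * ha22 - 4 * ha33
  have hc22 : c22 = -d23 := by
    linear_combination (e7 - e9) / 2 - 4 * ha23 - hc33
  subst hc33 ha33 hc11 hc13 ha13 ha11 ha22 ha23 hc23 hc22
  have h2 : pC * (pE * pF2) = pC * (pC * A + pE * (b1 * m1 + b2 * m2 + b3 * m3) +
      pE ^ 2 * (C d11 * py ^ 2 * (px ^ 2 + pz ^ 2 - py ^ 2) +
        C d22 * px ^ 2 * (py ^ 2 + pz ^ 2 - px ^ 2) +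
        px * py * pz * (C a11 * py - C d23 * px + C a12 * px + C c12 * py + C d12 * pz))) := by
    have h3 : pC * (pE * pF2) = pF := by simp only [pF]; ring
    rw [h3, h]
    simp only [pC, m1, m2, m3, map_add, map_neg, map_zero]
    ring
  have h4 := mul_left_cancel₀ pC_ne h2
  have ev : ∀ a b c : ℂ, _ := fun a b c => congrArg (eval ![a, b, c]) h4
  simp only [pF2, pG4, pE, pC, m1, m2, m3, px, py, pz, map_add, map_sub, map_mul, map_pow,
    eval_X, eval_C, map_ofNat, Matrix.cons_val_zero, Matrix.cons_val_one, Matrix.cons_val] at ev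
  have f1 : 1 = -d22 := by
    have k := ev 1 0 0
    linear_combination (1 / 144 : ℂ) * k
  have f2 : 1 = -d11 := by
    have k := ev 0 1 0
    linear_combination k
  have f3 : 0 = d11 + d22 + (a11 - d23 + a12 + c12 + d12) := by
    have k := ev 1 1 1
    linear_combination (1 / 36 : ℂ) * k
  have f4 : 0 = d11 + d22 - (-a11 - d23 + a12 - c12 + d12) := by
    have k := ev 1 (-1) 1
    linear_combination (1 / 144 : ℂ) * k
  have f5 : 0 = d11 + d22 - (a11 + d23 - a12 + c12 + d12) := by
    have k := ev (-1) 1 1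
    linear_combination (1 / 144 : ℂ) * k
  have f6 : 0 = d11 + d22 + (-a11 + d23 - a12 - c12 + d12) := by
    have k := ev (-1) (-1) 1
    linear_combination (1 / 36 : ℂ) * k
  have : (0 : ℂ) = 2 := by linear_combination -(f3 + f4 + f5 + f6) / 4 - f1 - f2
  norm_num at this

theorem not_form (A b1 b2 b3 g11 g12 g13 g22 g23 g33 : R)
    (h : pF = pC ^ 2 * A + pC * pE * (b1 * m1 + b2 * m2 + b3 * m3) +
      pE ^ 2 * (g11 * m1 ^ 2 + g12 * (m1 * m2) + g13 * (m1 * m3) + g22 * m2 ^ 2
        + g23 * (m2 * m3) + g33 * m3 ^ 2)) : False := by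
  have h1 : pF = pC ^ 2 * A + (pC * pE * m1) * b1 + (pC * pE * m2) * b2 + (pC * pE * m3) * b3
      + (pE ^ 2 * m1 ^ 2) * g11 + (pE ^ 2 * (m1 * m2)) * g12 + (pE ^ 2 * (m1 * m3)) * g13
      + (pE ^ 2 * m2 ^ 2) * g22 + (pE ^ 2 * (m2 * m3)) * g23 + (pE ^ 2 * m3 ^ 2) * g33 := by
    rw [h]; ring
  have h2 := congrArg (homogeneousComponent 15) h1
  have k0 : homogeneousComponent 15 pF = pF := by
    rw [homogeneousComponent_of_mem homF, if_pos rfl]
  have kA : homogeneousComponent 15 (pC ^ 2 * A) = pC ^ 2 * homogeneousComponent 5 A :=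
    homComp_mul (homC.pow 2) 5 A
  have kb1 : homogeneousComponent 15 (pC * pE * m1 * b1) =
      pC * pE * m1 * homogeneousComponent 3 b1 :=
    homComp_mul ((homC.mul homE).mul homm1) 3 b1
  have kb2 : homogeneousComponent 15 (pC * pE * m2 * b2) =
      pC * pE * m2 * homogeneousComponent 3 b2 :=
    homComp_mul ((homC.mul homE).mul homm2) 3 b2
  have kb3 : homogeneousComponent 15 (pC * pE * m3 * b3) =
      pC * pE * m3 * homogeneousComponent 3 b3 :=
    homComp_mul ((homC.mul homE).mul homm3) 3 b3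
  have kg11 : homogeneousComponent 15 (pE ^ 2 * m1 ^ 2 * g11) =
      pE ^ 2 * m1 ^ 2 * homogeneousComponent 1 g11 :=
    homComp_mul ((homE.pow 2).mul (homm1.pow 2)) 1 g11
  have kg12 : homogeneousComponent 15 (pE ^ 2 * (m1 * m2) * g12) =
      pE ^ 2 * (m1 * m2) * homogeneousComponent 1 g12 :=
    homComp_mul ((homE.pow 2).mul (homm1.mul homm2)) 1 g12
  have kg13 : homogeneousComponent 15 (pE ^ 2 * (m1 * m3) * g13) =
      pE ^ 2 * (m1 * m3) * homogeneousComponent 1 g13 :=
    homComp_mul ((homE.pow 2).mul (homm1.mul homm3)) 1 g13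
  have kg22 : homogeneousComponent 15 (pE ^ 2 * m2 ^ 2 * g22) =
      pE ^ 2 * m2 ^ 2 * homogeneousComponent 1 g22 :=
    homComp_mul ((homE.pow 2).mul (homm2.pow 2)) 1 g22
  have kg23 : homogeneousComponent 15 (pE ^ 2 * (m2 * m3) * g23) =
      pE ^ 2 * (m2 * m3) * homogeneousComponent 1 g23 :=
    homComp_mul ((homE.pow 2).mul (homm2.mul homm3)) 1 g23
  have kg33 : homogeneousComponent 15 (pE ^ 2 * m3 ^ 2 * g33) =
      pE ^ 2 * m3 ^ 2 * homogeneousComponent 1 g33 :=
    homComp_mul ((homE.pow 2).mul (homm3.pow 2)) 1 g33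
  simp only [map_add, k0, kA, kb1, kb2, kb3, kg11, kg12, kg13, kg22, kg23, kg33] at h2
  obtain ⟨a11, c11, d11, l11⟩ := linear_form (homogeneousComponent_isHomogeneous 1 g11)
  obtain ⟨a12, c12, d12, l12⟩ := linear_form (homogeneousComponent_isHomogeneous 1 g12)
  obtain ⟨a13, c13, d13, l13⟩ := linear_form (homogeneousComponent_isHomogeneous 1 g13)
  obtain ⟨a22, c22, d22, l22⟩ := linear_form (homogeneousComponent_isHomogeneous 1 g22)
  obtain ⟨a23, c23, d23, l23⟩ := linear_form (homogeneousComponent_isHomogeneous 1 g23)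
  obtain ⟨a33, c33, d33, l33⟩ := linear_form (homogeneousComponent_isHomogeneous 1 g33)
  rw [l11, l12, l13, l22, l23, l33] at h2
  exact not_form_lin (homogeneousComponent 5 A) (homogeneousComponent 3 b1)
    (homogeneousComponent 3 b2) (homogeneousComponent 3 b3)
    a11 c11 d11 a12 c12 d12 a13 c13 d13 a22 c22 d22 a23 c23 d23 a33 c33 d33
    (by rw [h2]; ring)

/-- the set of all forms C a + E (q1 m1 + q2 m2 + q3 m3) -/
def InW (f : R) : Prop := ∃ a q1 q2 q3 : R, f = pC * a + pE * (q1 * m1 + q2 * m2 + q3 * m3)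

/-- if every element of J has the form C a + E (q1 m1 + q2 m2 + q3 m3) then F is not in J^2 -/
theorem not_mem_sq (J : Ideal R) (hJ : ∀ f ∈ J, InW f) : pF ∉ J ^ 2 := by
  intro hF
  rw [pow_two] at hF
  have key : ∀ g ∈ J * J, ∃ A b1 b2 b3 g11 g12 g13 g22 g23 g33 : R,
      g = pC ^ 2 * A + pC * pE * (b1 * m1 + b2 * m2 + b3 * m3) +
      pE ^ 2 * (g11 * m1 ^ 2 + g12 * (m1 * m2) + g13 * (m1 * m3) + g22 * m2 ^ 2
        + g23 * (m2 * m3) + g33 * m3 ^ 2) := by
    intro g hg
    refine Submodule.mul_induction_on hg ?_ ?_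
    · intro f hf g hg
      obtain ⟨a, q1, q2, q3, rfl⟩ := hJ f hf
      obtain ⟨a', r1, r2, r3, rfl⟩ := hJ g hg
      refine ⟨a * a', a * r1 + a' * q1, a * r2 + a' * q2, a * r3 + a' * q3,
        q1 * r1, q1 * r2 + q2 * r1, q1 * r3 + q3 * r1, q2 * r2, q2 * r3 + q3 * r2, q3 * r3, ?_⟩
      ring
    · rintro f g ⟨A, b1, b2, b3, g11, g12, g13, g22, g23, g33, rfl⟩
        ⟨A', b1', b2', b3', g11', g12', g13', g22', g23', g33', rfl⟩
      refine ⟨A + A', b1 + b1', b2 + b2', b3 + b3', g11 + g11', g12 + g12', g13 + g13',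
        g22 + g22', g23 + g23', g33 + g33', ?_⟩
      ring
  obtain ⟨A, b1, b2, b3, g11, g12, g13, g22, g23, g33, h⟩ := key _ hF
  exact not_form A b1 b2 b3 g11 g12 g13 g22 g23 g33 h

end

end R858SS
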