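import Mathlib

/-!
General definitions: central hyperplane arrangements in a complex coordinate space, the ideal
of the singular locus, its symbolic powers, and supersolvability.
-/

namespace R858SS

open MvPolynomial

noncomputable section

variable {l : ℕ}

/-- `A` is a central hyperplane arrangement in `ℂ^l`: a finite set of linear hyperplanes, each
the zero set of a nonzero linear form. -/
def IsArrangement (A : Finset (Submodule ℂ (Fin l → ℂ))) : Prop :=
  ∀ H ∈ A, ∃ α : (Fin l → ℂ) →ₗ[ℂ] ℂ, α ≠ 0 ∧ H = LinearMap.ker α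

/-- The codimension-two flats `H ∩ H'` with `H ≠ H'` in `A`. -/
def L2 (A : Finset (Submodule ℂ (Fin l → ℂ))) : Set (Submodule ℂ (Fin l → ℂ)) :=
  {X | ∃ H ∈ A, ∃ H' ∈ A, H ≠ H' ∧ X = H ⊓ H'}

/-- The prime ideal `I(X)` of a linear subspace: all polynomials vanishing on `X`. -/
def idealOf (X : Submodule ℂ (Fin l → ℂ)) : Ideal (MvPolynomial (Fin l) ℂ) :=
  vanishingIdeal ℂ (X : Set (Fin l → ℂ))

/-- The radical ideal `J(A)` of the singular locus. -/
def J (A : Finset (Submodule ℂ (Fin l → ℂ))) : Ideal (MvPolynomial (Fin l) ℂ) :=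
  ⨅ X ∈ L2 A, idealOf X

/-- The `m`-th symbolic power `J(A)^(m)`, the intersection of the `I(X)^m`. -/
def symbolicPower (A : Finset (Submodule ℂ (Fin l → ℂ))) (m : ℕ) :
    Ideal (MvPolynomial (Fin l) ℂ) :=
  ⨅ X ∈ L2 A, idealOf X ^ m

/-- The rank (codimension) of a subspace. -/
def rk (X : Submodule ℂ (Fin l → ℂ)) : ℕ := Module.finrank ℂ ((Fin l → ℂ) ⧸ X)

/-- The intersection lattice `L(A)`: all intersections of subfamilies of `A` (the empty
intersection is the whole space). -/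
def flats (A : Finset (Submodule ℂ (Fin l → ℂ))) : Set (Submodule ℂ (Fin l → ℂ)) :=
  {X | ∃ B : Set (Submodule ℂ (Fin l → ℂ)), B ⊆ (A : Set (Submodule ℂ (Fin l → ℂ))) ∧ X = sInf B}

/-- The meet `X ∧ Y` in `L(A)` ordered by reverse inclusion: the smallest flat containing both
`X` and `Y`, that is, the intersection of all hyperplanes of `A` containing `X` and `Y`.
(The join `X ∨ Y` is the intersection `X ⊓ Y`.) -/
def flatMeet (A : Finset (Submodule ℂ (Fin l → ℂ))) (X Y : Submodule ℂ (Fin l → ℂ)) :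
    Submodule ℂ (Fin l → ℂ) :=
  sInf {H | H ∈ A ∧ X ≤ H ∧ Y ≤ H}

/-- `X ∈ L(A)` is modular if `rk X + rk Y = rk (X ∨ Y) + rk (X ∧ Y)` for all `Y ∈ L(A)`. -/
def IsModular (A : Finset (Submodule ℂ (Fin l → ℂ))) (X : Submodule ℂ (Fin l → ℂ)) : Prop :=
  X ∈ flats A ∧ ∀ Y ∈ flats A, rk X + rk Y = rk (X ⊓ Y) + rk (flatMeet A X Y)

/-- `A` is supersolvable if `L(A)` has a maximal chain consisting of modular elements. -/
def IsSupersolvable (A : Finset (Submodule ℂ (Fin l → ℂ))) : Prop :=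
  ∃ c : Set (flats A), IsMaxChain (· ≤ ·) c ∧ ∀ X ∈ c, IsModular A X

/-- The join of two flats in `L(A)` (ordered by reverse inclusion) is their intersection. -/
lemma inf_mem_flats {A : Finset (Submodule ℂ (Fin l → ℂ))} {X Y : Submodule ℂ (Fin l → ℂ)}
    (hX : X ∈ flats A) (hY : Y ∈ flats A) : X ⊓ Y ∈ flats A := by
  obtain ⟨B, hB, rfl⟩ := hX
  obtain ⟨B', hB', rfl⟩ := hY
  exact ⟨B ∪ B', Set.union_subset hB hB', sInf_union.symm⟩

/-- The meet of two flats in `L(A)` (ordered by reverse inclusion) is `flatMeet`: it is the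
least subspace in `L(A)` containing both. -/
lemma flatMeet_isLeast (A : Finset (Submodule ℂ (Fin l → ℂ))) (X Y : Submodule ℂ (Fin l → ℂ)) :
    IsLeast {Z | Z ∈ flats A ∧ X ≤ Z ∧ Y ≤ Z} (flatMeet A X Y) := by
  refine ⟨⟨⟨_, fun H hH => hH.1, rfl⟩, le_sInf fun H hH => hH.2.1, le_sInf fun H hH => hH.2.2⟩,
    ?_⟩
  rintro Z ⟨⟨B, hB, rfl⟩, h1, h2⟩
  refine sInf_le_sInf fun H hH => ⟨hB hH, h1.trans (sInf_le hH), h2.trans (sInf_le hH)⟩

lemma flatMeet_le_right {A : Finset (Submodule ℂ (Fin l → ℂ))} {X Y : Submodule ℂ (Fin l → ℂ)}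
    (hY : Y ∈ flats A) (h : X ≤ Y) : flatMeet A X Y ≤ Y :=
  (flatMeet_isLeast A X Y).2 ⟨hY, h, le_rfl⟩

lemma flatMeet_le_left {A : Finset (Submodule ℂ (Fin l → ℂ))} {X Y : Submodule ℂ (Fin l → ℂ)}
    (hX : X ∈ flats A) (h : Y ≤ X) : flatMeet A X Y ≤ X :=
  (flatMeet_isLeast A X Y).2 ⟨hX, le_rfl, h⟩

lemma sup_le_flatMeet (A : Finset (Submodule ℂ (Fin l → ℂ))) (X Y : Submodule ℂ (Fin l → ℂ)) :
    X ⊔ Y ≤ flatMeet A X Y :=
  sup_le (flatMeet_isLeast A X Y).1.2.1 (flatMeet_isLeast A X Y).1.2.2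

/-- a flat is modular as soon as all sums with flats are flats -/
lemma isModular_of {A : Finset (Submodule ℂ (Fin l → ℂ))} {X : Submodule ℂ (Fin l → ℂ)}
    (hX : X ∈ flats A) (h : ∀ Y ∈ flats A, flatMeet A X Y ≤ X ⊔ Y) : IsModular A X := by
  refine ⟨hX, fun Y hY => ?_⟩
  have e : flatMeet A X Y = X ⊔ Y := le_antisymm (h Y hY) (sup_le_flatMeet A X Y)
  rw [e]
  have h1 := Submodule.finrank_quotient_add_finrank X
  have h2 := Submodule.finrank_quotient_add_finrank Y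
  have h3 := Submodule.finrank_quotient_add_finrank (X ⊓ Y)
  have h4 := Submodule.finrank_quotient_add_finrank (X ⊔ Y)
  have h5 := Submodule.finrank_sup_add_finrank_inf_eq X Y
  unfold rk
  omega

lemma isModular_top (A : Finset (Submodule ℂ (Fin l → ℂ))) : IsModular A ⊤ :=
  isModular_of ⟨∅, by simp, by simp⟩ (fun Y _ => by simp)

end

end R858SS
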