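import Pool.Agent.R858.SS.FreeExp

/-!
The arrangement of the twelve planes is inductively free.
-/

namespace R858SS

open MvPolynomial

noncomputable section

variable {l : ℕ}

/-- deletion of a plane -/
lemma deletion_arrOf {κ : Type} [DecidableEq κ] {w : κ → Fin l → ℤ} {T : Finset κ} {k : κ}
    (hk : k ∉ T) (hinj : ∀ t ∈ T, hyp (w t) ≠ hyp (w k)) :
    deletion (arrOf w (insert k T)) (hyp (w k)) = arrOf w T := by
  ext H
  rw [deletion, Finset.mem_erase, mem_arrOf, mem_arrOf]
  constructor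
  · rintro ⟨hne, t, ht, rfl⟩
    rcases Finset.mem_insert.1 ht with rfl | ht
    · exact absurd rfl hne
    · exact ⟨t, ht, rfl⟩
  · rintro ⟨t, ht, rfl⟩
    exact ⟨hinj t ht, t, Finset.mem_insert_of_mem ht, rfl⟩

/-- the linear map with an integer matrix -/
def mapOf {l m : ℕ} (M : Fin m → Fin l → ℤ) : (Fin l → ℂ) →ₗ[ℂ] (Fin m → ℂ) :=
  LinearMap.pi fun i => linOf (M i)

lemma mapOf_apply {l m : ℕ} (M : Fin m → Fin l → ℤ) (p : Fin l → ℂ) (i : Fin m) :
    mapOf M p i = ∑ k, (M i k : ℂ) * p k := by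
  rw [mapOf, LinearMap.pi_apply, linOf_apply]

/-- the vector `v` times the matrix `M` -/
def vm {l m : ℕ} (v : Fin m → ℤ) (M : Fin m → Fin l → ℤ) : Fin l → ℤ := fun k => ∑ i, v i * M i k

lemma comap_hyp {l m : ℕ} (v : Fin m → ℤ) (M : Fin m → Fin l → ℤ) :
    (hyp v).comap (mapOf M) = hyp (vm v M) := by
  ext p
  rw [Submodule.mem_comap, mem_hyp, mem_hyp]
  have : ∑ k, (v k : ℂ) * mapOf M p k = ∑ k, (vm v M k : ℂ) * p k := by
    simp only [mapOf_apply, vm, Int.cast_sum, Int.cast_mul, Finset.mul_sum, Finset.sum_mul]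
    rw [Finset.sum_comm]
    apply Finset.sum_congr rfl; intro i _
    apply Finset.sum_congr rfl; intro j _
    ring
  rw [this]

/-- the restriction computed with integer vectors -/
lemma restriction_arrOf {κ : Type} [DecidableEq κ] {w : κ → Fin (l + 1) → ℤ} {T : Finset κ} {k : κ}
    (hk : k ∉ T) (hinj : ∀ t ∈ T, hyp (w t) ≠ hyp (w k)) (M : Fin (l + 1) → Fin l → ℤ) :
    restriction (arrOf w (insert k T)) (hyp (w k)) (mapOf M) = arrOf (fun t => vm (w t) M) T := by
  rw [restriction, deletion_arrOf hk hinj]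
  ext H
  rw [Finset.mem_image, mem_arrOf]
  constructor
  · rintro ⟨K, hK, rfl⟩
    obtain ⟨t, ht, rfl⟩ := mem_arrOf.1 hK
    exact ⟨t, ht, (comap_hyp _ _).symm⟩
  · rintro ⟨t, ht, rfl⟩
    exact ⟨hyp (w t), mem_arrOf.2 ⟨t, ht, rfl⟩, comap_hyp _ _⟩

/-- a chart from an integer left inverse -/
lemma isChart_of {v : Fin (l + 1) → ℤ} (hv : v ≠ 0) (M : Fin (l + 1) → Fin l → ℤ)
    (N : Fin l → Fin (l + 1) → ℤ) (c : ℤ) (hc : c ≠ 0)
    (hNM : ∀ i k, ∑ j, N i j * M j k = if i = k then c else 0) (hvM : vm v M = 0) :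
    IsChart (hyp v) (mapOf M) := by
  have hinj : Function.Injective (mapOf M) := by
    rw [← LinearMap.ker_eq_bot, eq_bot_iff]
    intro p hp
    rw [LinearMap.mem_ker] at hp
    rw [Submodule.mem_bot]
    funext i
    have h1 : (c : ℂ) * p i = ∑ j, (N i j : ℂ) * mapOf M p j := by
      simp only [mapOf_apply, Finset.mul_sum]
      rw [Finset.sum_comm]
      have : ∀ k, ∑ j, (N i j : ℂ) * ((M j k : ℂ) * p k) = (if i = k then (c : ℂ) else 0) * p k := by
        intro k
        have h2 : ((∑ j, N i j * M j k : ℤ) : ℂ) = ((if i = k then c else 0 : ℤ) : ℂ) := by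
          rw [hNM]
        push_cast at h2
        rw [← h2, Finset.sum_mul]
        apply Finset.sum_congr rfl; intro j _; ring
      simp only [this]
      rw [Finset.sum_eq_single i]
      · simp
      · intro b _ hb; rw [if_neg hb.symm, zero_mul]
      · simp
    rw [hp] at h1
    simp at h1
    rcases h1 with h1 | h1
    · exact absurd h1 hc
    · exact h1
  refine ⟨hinj, ?_⟩
  apply Submodule.eq_of_le_of_finrank_eq
  · rintro _ ⟨p, rfl⟩
    have : p ∈ (hyp v).comap (mapOf M) := by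
      rw [comap_hyp, hvM, mem_hyp]; simp
    exact this
  · rw [LinearMap.finrank_range_of_inj hinj, Module.finrank_fin_fun]
    have h := Module.Dual.finrank_ker_add_one_of_ne_zero (f := linOf v) (linOf_ne v hv)
    rw [Module.finrank_fin_fun] at h
    unfold hyp
    omega

/-- proportional vectors define the same hyperplane -/
lemma hyp_eq_of {u v : Fin l → ℤ} {a b : ℤ} (ha : a ≠ 0) (hb : b ≠ 0)
    (h : ∀ k, a * u k = b * v k) : hyp u = hyp v := by
  ext p
  rw [mem_hyp, mem_hyp]
  have : (a : ℂ) * ∑ k, (u k : ℂ) * p k = (b : ℂ) * ∑ k, (v k : ℂ) * p k := by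
    rw [Finset.mul_sum, Finset.mul_sum]
    apply Finset.sum_congr rfl; intro k _
    have e : (a : ℂ) * (u k : ℂ) = (b : ℂ) * (v k : ℂ) := by exact_mod_cast h k
    linear_combination p k * e
  constructor
  · intro hu
    rw [hu, mul_zero] at this
    exact (mul_eq_zero.1 this.symm).resolve_left (Int.cast_ne_zero.2 hb)
  · intro hv
    rw [hv, mul_zero] at this
    exact (mul_eq_zero.1 this).resolve_left (Int.cast_ne_zero.2 ha)

lemma hyp2_eq {u v : Fin 2 → ℤ} (hu : u ≠ 0) (hv : v ≠ 0) (h : u 0 * v 1 = u 1 * v 0) :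
    hyp u = hyp v := by
  by_cases hv0 : v 0 = 0
  · have hv1 : v 1 ≠ 0 := by
      intro e; apply hv; funext k; fin_cases k
      · exact hv0
      · exact e
    have hu0 : u 0 = 0 := by
      rw [hv0, mul_zero] at h
      exact (mul_eq_zero.1 h).resolve_right hv1
    have hu1 : u 1 ≠ 0 := by
      intro e; apply hu; funext k; fin_cases k
      · exact hu0
      · exact e
    refine hyp_eq_of hv1 hu1 ?_
    intro k; fin_cases k
    · change v 1 * u 0 = u 1 * v 0
      rw [hu0, hv0, mul_zero, mul_zero]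
    · change v 1 * u 1 = u 1 * v 1
      ring
  · have hu0 : u 0 ≠ 0 := by
      intro e
      rw [e, zero_mul] at h
      have hu1 : u 1 = 0 := (mul_eq_zero.1 h.symm).resolve_right hv0
      apply hu; funext k; fin_cases k
      · exact e
      · exact hu1
    refine hyp_eq_of hv0 hu0 ?_
    intro k; fin_cases k
    · change v 0 * u 0 = u 0 * v 0
      ring
    · change v 0 * u 1 = u 0 * v 1
      linarith

lemma ms3 (a b c : ℕ) : (Finset.univ : Finset (Fin 3)).val.map ![a, b, c] = a ::ₘ b ::ₘ c ::ₘ 0 :=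
  rfl
lemma ms2 (a b : ℕ) : (Finset.univ : Finset (Fin 2)).val.map ![a, b] = a ::ₘ b ::ₘ 0 := rfl
lemma ms1 (a : ℕ) : (Finset.univ : Finset (Fin 1)).val.map ![a] = a ::ₘ 0 := rfl
lemma mz (l : ℕ) : (Finset.univ : Finset (Fin l)).val.map (fun _ => 0) = Multiset.replicate l 0 := by
  rw [Multiset.map_const']; simp

lemma arrOf_empty {κ : Type} (w : κ → Fin l → ℤ) : arrOf w ∅ = ∅ := by simp [arrOf]

/-- the first step: one hyperplane -/
lemma indFree_single {κ : Type} [DecidableEq κ] (w : κ → Fin (l + 1) → ℤ) (k : κ) (_ : w k ≠ 0)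
    (M : Fin (l + 1) → Fin l → ℤ) (hM : IsChart (hyp (w k)) (mapOf M)) :
    InductivelyFree (l + 1) (arrOf w (insert k ∅)) := by
  have h1 : deletion (arrOf w (insert k ∅)) (hyp (w k)) = ∅ := by
    rw [deletion_arrOf (Finset.notMem_empty k) (by simp), arrOf_empty]
  have h2 : restriction (arrOf w (insert k ∅)) (hyp (w k)) (mapOf M) = ∅ := by
    rw [restriction_arrOf (Finset.notMem_empty k) (by simp), arrOf_empty]
  refine InductivelyFree.add l _ (hyp (w k)) (mapOf M)
    (mem_arrOf.2 ⟨k, Finset.mem_insert_self _ _, rfl⟩) hM ?_ ?_ ?_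
  · rw [h1]; exact InductivelyFree.empty _
  · rw [h2]; exact InductivelyFree.empty _
  · rw [h1, h2]
    refine ⟨_, _, exp_empty l, exp_empty (l + 1), ?_⟩
    rw [mz, mz]
    exact Multiset.replicate_le_replicate _ |>.2 (Nat.le_succ l)

lemma indFree_one : InductivelyFree 1 (arrOf (fun _ : Unit => (![1] : Fin 1 → ℤ)) Finset.univ) := by
  have h := indFree_single (l := 0) (fun _ : Unit => (![1] : Fin 1 → ℤ)) () (by decide)
    (fun _ => Fin.elim0) (isChart_of (by decide) _ (fun i => Fin.elim0 i) 1 one_ne_zero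
      (fun i => Fin.elim0 i) (by funext k; exact Fin.elim0 k))
  exact h

lemma ne_of_inj {κ : Type} {w : κ → Fin l → ℤ} {s t : κ} (q : κ → Fin l → ℤ)
    (h1 : ∑ k, w s k * q s k = 0) (h2 : ∑ k, w t k * q s k ≠ 0) : hyp (w s) ≠ hyp (w t) := by
  intro h
  have h3 : (fun k => (q s k : ℂ)) ∈ hyp (w s) := (mem_hyp_int _ _).2 h1
  rw [h] at h3
  exact h2 ((mem_hyp_int _ _).1 h3)

theorem indFree_two (T : Finset (Fin 12)) : T ⊆ Finset.Icc 6 11 →
    InductivelyFree 2 (arrOf fz2 (insert 5 T)) := by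
  induction T using Finset.induction_on with
  | empty =>
    intro _
    exact indFree_single (l := 1) fz2 5 (by decide) ![![0], ![1]]
      (isChart_of (by decide) _ ![![0, 1]] 1 one_ne_zero (by decide) (by decide))
  | insert k T hkT ih =>
    intro hT
    have hk : k ∈ (Finset.Icc 6 11 : Finset (Fin 12)) := hT (Finset.mem_insert_self _ _)
    have hT' : T ⊆ Finset.Icc 6 11 := fun t ht => hT (Finset.mem_insert_of_mem ht)
    have hup : ∀ t ∈ insert 5 T, t ∈ (Finset.Icc 5 11 : Finset (Fin 12)) := by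
      intro t ht
      rcases Finset.mem_insert.1 ht with rfl | ht
      · decide
      · have := hT' ht
        rw [Finset.mem_Icc] at this ⊢
        exact ⟨le_trans (by decide) this.1, this.2⟩
    have hk5 : k ∈ (Finset.Icc 5 11 : Finset (Fin 12)) := by
      rw [Finset.mem_Icc] at hk ⊢
      exact ⟨le_trans (by decide) hk.1, hk.2⟩
    have hkn : k ∉ insert 5 T := by
      intro h
      rcases Finset.mem_insert.1 h with rfl | h
      · exact absurd hk (by decide)
      · exact hkT h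
    have hne : ∀ t ∈ insert 5 T, hyp (fz2 t) ≠ hyp (fz2 k) := by
      intro t ht
      refine ne_of_inj wit2 ((wit2_spec t (hup t ht) t (hup t ht)).2 rfl) ?_
      intro e
      have := (wit2_spec t (hup t ht) k hk5).1 e
      exact hkn (this ▸ ht)
    rw [Finset.insert_comm]
    have hchart : IsChart (hyp (fz2 k)) (mapOf ![![fz2 k 1], ![-fz2 k 0]]) := by
      have hall : ∀ k ∈ (Finset.Icc 6 11 : Finset (Fin 12)),
          fz2 k ≠ 0 ∧ (∀ i j : Fin 1, ∑ m, (![![fz2 k 1, 0]] : Fin 1 → Fin 2 → ℤ) i m *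
            (![![fz2 k 1], ![-fz2 k 0]] : Fin 2 → Fin 1 → ℤ) m j = if i = j then 1 else 0) ∧
          vm (fz2 k) ![![fz2 k 1], ![-fz2 k 0]] = 0 := by decide
      obtain ⟨h1, h2, h3⟩ := hall k hk
      exact isChart_of h1 _ _ 1 one_ne_zero h2 h3
    have hres : restriction (arrOf fz2 (insert k (insert 5 T))) (hyp (fz2 k))
        (mapOf ![![fz2 k 1], ![-fz2 k 0]]) =
        arrOf (fun _ : Unit => (![1] : Fin 1 → ℤ)) Finset.univ := by
      rw [restriction_arrOf hkn hne]
      have hb : ∀ t ∈ insert 5 T, hyp (vm (fz2 t) ![![fz2 k 1], ![-fz2 k 0]]) =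
          hyp (![1] : Fin 1 → ℤ) := by
        intro t ht
        have hne0 : vm (fz2 t) ![![fz2 k 1], ![-fz2 k 0]] 0 ≠ 0 := by
          intro e
          have h2 : ∑ m, fz2 k m * wit2 t m = 0 := by
            simp [vm, Fin.sum_univ_two, wit2, fz2] at e ⊢
            linarith
          have := (wit2_spec t (hup t ht) k hk5).1 h2
          exact hkn (this ▸ ht)
        refine hyp_eq_of one_ne_zero hne0 ?_
        intro j; fin_cases j
        change 1 * vm (fz2 t) ![![fz2 k 1], ![-fz2 k 0]] 0 =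
          vm (fz2 t) ![![fz2 k 1], ![-fz2 k 0]] 0 * 1
        ring
      ext H
      rw [mem_arrOf, mem_arrOf]
      constructor
      · rintro ⟨t, ht, rfl⟩
        exact ⟨(), Finset.mem_univ _, (hb t ht).symm⟩
      · rintro ⟨_, _, rfl⟩
        exact ⟨5, Finset.mem_insert_self _ _, hb 5 (Finset.mem_insert_self _ _)⟩
    refine InductivelyFree.add 1 _ (hyp (fz2 k)) (mapOf ![![fz2 k 1], ![-fz2 k 0]])
      (mem_arrOf.2 ⟨k, Finset.mem_insert_self _ _, rfl⟩) hchart ?_ ?_ ?_
    · rw [deletion_arrOf hkn hne]; exact ih hT'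
    · rw [hres]; exact indFree_one
    · rw [hres, deletion_arrOf hkn hne]
      refine ⟨_, _, exp_one, exp_two T hT', ?_⟩
      rw [ms1, ms2]
      exact Multiset.cons_le_cons _ (Multiset.zero_le _)

theorem indFree_low (T : Finset (Fin 12)) : T ⊆ Finset.Icc 6 11 →
    InductivelyFree 3 (arrOf fz (insert 5 T)) := by
  induction T using Finset.induction_on with
  | empty =>
    intro _
    exact indFree_single (l := 2) fz 5 (by decide) ![![0, 0], ![1, 0], ![0, 1]]
      (isChart_of (by decide) _ ![![0, 1, 0], ![0, 0, 1]] 1 one_ne_zero (by decide) (by decide))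
  | insert k T hkT ih =>
    intro hT
    have hk : k ∈ (Finset.Icc 6 11 : Finset (Fin 12)) := hT (Finset.mem_insert_self _ _)
    have hT' : T ⊆ Finset.Icc 6 11 := fun t ht => hT (Finset.mem_insert_of_mem ht)
    have hup : ∀ t ∈ insert 5 T, t ∈ (Finset.Icc 5 11 : Finset (Fin 12)) := by
      intro t ht
      rcases Finset.mem_insert.1 ht with rfl | ht
      · decide
      · have := hT' ht
        rw [Finset.mem_Icc] at this ⊢
        exact ⟨le_trans (by decide) this.1, this.2⟩
    have hkn : k ∉ insert 5 T := by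
      intro h
      rcases Finset.mem_insert.1 h with rfl | h
      · exact absurd hk (by decide)
      · exact hkT h
    have hne : ∀ t ∈ insert 5 T, hyp (fz t) ≠ hyp (fz k) := by
      intro t ht h
      exact hkn ((hyp_fz_inj h) ▸ ht)
    rw [Finset.insert_comm]
    have hchart : IsChart (hyp (fz k)) (mapOf ![![fz k 1, 0], ![-fz k 0, 0], ![0, 1]]) := by
      have hall : ∀ k ∈ (Finset.Icc 6 11 : Finset (Fin 12)),
          (∀ i j : Fin 2, ∑ m, (![![fz k 1, 0, 0], ![0, 0, 1]] : Fin 2 → Fin 3 → ℤ) i m *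
            (![![fz k 1, 0], ![-fz k 0, 0], ![0, 1]] : Fin 3 → Fin 2 → ℤ) m j =
              if i = j then 1 else 0) ∧
          vm (fz k) ![![fz k 1, 0], ![-fz k 0, 0], ![0, 1]] = 0 := by decide
      obtain ⟨h2, h3⟩ := hall k hk
      exact isChart_of (fz_ne k) _ _ 1 one_ne_zero h2 h3
    have hres : restriction (arrOf fz (insert k (insert 5 T))) (hyp (fz k))
        (mapOf ![![fz k 1, 0], ![-fz k 0, 0], ![0, 1]]) = arrOf fz2 (insert 5 ∅) := by
      rw [restriction_arrOf hkn hne]
      have hb : ∀ t ∈ insert 5 T, hyp (vm (fz t) ![![fz k 1, 0], ![-fz k 0, 0], ![0, 1]]) =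
          hyp (fz2 5) := by
        intro t ht
        have hall : ∀ k ∈ (Finset.Icc 6 11 : Finset (Fin 12)),
            ∀ t ∈ (Finset.Icc 5 11 : Finset (Fin 12)), t ≠ k →
            vm (fz t) ![![fz k 1, 0], ![-fz k 0, 0], ![0, 1]] ≠ 0 ∧
            vm (fz t) ![![fz k 1, 0], ![-fz k 0, 0], ![0, 1]] 0 * fz2 5 1 =
            vm (fz t) ![![fz k 1, 0], ![-fz k 0, 0], ![0, 1]] 1 * fz2 5 0 := by decide
        obtain ⟨h1, h2⟩ := hall k hk t (hup t ht) (fun e => hkn (e ▸ ht))
        exact hyp2_eq h1 (by decide) h2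
      ext H
      rw [mem_arrOf, mem_arrOf]
      constructor
      · rintro ⟨t, ht, rfl⟩
        exact ⟨5, Finset.mem_insert_self _ _, (hb t ht).symm⟩
      · rintro ⟨t, ht, rfl⟩
        have ht5 : t = 5 := by simpa using ht
        subst ht5
        exact ⟨5, Finset.mem_insert_self _ _, hb 5 (Finset.mem_insert_self _ _)⟩
    refine InductivelyFree.add 2 _ (hyp (fz k)) (mapOf ![![fz k 1, 0], ![-fz k 0, 0], ![0, 1]])
      (mem_arrOf.2 ⟨k, Finset.mem_insert_self _ _, rfl⟩) hchart ?_ ?_ ?_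
    · rw [deletion_arrOf hkn hne]; exact ih hT'
    · rw [hres]; exact indFree_two ∅ (by simp)
    · rw [hres, deletion_arrOf hkn hne]
      refine ⟨_, _, exp_two ∅ (by simp), exp_low T hT', ?_⟩
      rw [ms2, ms3, Finset.card_empty]
      refine Multiset.cons_le_cons _ ?_
      exact Multiset.le_cons_self _ _

/-- charts of the five planes not containing the line `x = y = 0` -/
def Mk : Fin 12 → Fin 3 → Fin 2 → ℤ := fun k => ![![1, 0], ![0, 1],
  (![![0, 0], ![1, 0], ![-1, 0], ![0, 1], ![0, -1]] : Fin 5 → Fin 2 → ℤ) (Fin.ofNat 5 k.val)]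

lemma Mk_spec : ∀ k ∈ (Finset.Icc 0 4 : Finset (Fin 12)),
    (∀ i j : Fin 2, ∑ m, (![![1, 0, 0], ![0, 1, 0]] : Fin 2 → Fin 3 → ℤ) i m * Mk k m j =
      if i = j then 1 else 0) ∧ vm (fz k) (Mk k) = 0 := by decide

lemma Mk_hi : ∀ k ∈ (Finset.Icc 0 4 : Finset (Fin 12)),
    ∀ t ∈ (Finset.Icc 5 11 : Finset (Fin 12)), vm (fz t) (Mk k) = fz2 t := by decide

lemma Mk_lo : ∀ k ∈ (Finset.Icc 0 4 : Finset (Fin 12)),
    ∀ t ∈ (Finset.Icc 0 4 : Finset (Fin 12)), t ≠ k →
    ∃ s ∈ (Finset.Icc 5 8 : Finset (Fin 12)), vm (fz t) (Mk k) ≠ 0 ∧ fz2 s ≠ 0 ∧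
      vm (fz t) (Mk k) 0 * fz2 s 1 = vm (fz t) (Mk k) 1 * fz2 s 0 := by decide

theorem indFree_high (T : Finset (Fin 12)) : T ⊆ Finset.Icc 0 4 →
    InductivelyFree 3 (arrOf fz (insert 5 (Finset.Icc 6 11 ∪ T))) := by
  induction T using Finset.induction_on with
  | empty =>
    intro _
    rw [Finset.union_empty]
    exact indFree_low _ (by rfl)
  | insert k T hkT ih =>
    intro hT
    have hk : k ∈ (Finset.Icc 0 4 : Finset (Fin 12)) := hT (Finset.mem_insert_self _ _)
    have hT' : T ⊆ Finset.Icc 0 4 := fun t ht => hT (Finset.mem_insert_of_mem ht)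
    have hkn : k ∉ insert 5 (Finset.Icc 6 11 ∪ T) := by
      intro h
      rcases Finset.mem_insert.1 h with rfl | h
      · exact absurd hk (by decide)
      · rcases Finset.mem_union.1 h with h | h
        · rw [Finset.mem_Icc] at hk h
          exact absurd (le_trans h.1 hk.2) (by decide)
        · exact hkT h
    have hne : ∀ t ∈ insert 5 (Finset.Icc 6 11 ∪ T), hyp (fz t) ≠ hyp (fz k) := by
      intro t ht h
      exact hkn ((hyp_fz_inj h) ▸ ht)
    have hset : insert 5 (Finset.Icc 6 11 ∪ insert k T) =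
        insert k (insert 5 (Finset.Icc 6 11 ∪ T)) := by
      rw [Finset.union_insert, Finset.insert_comm]
    rw [hset]
    have hchart : IsChart (hyp (fz k)) (mapOf (Mk k)) := by
      obtain ⟨h2, h3⟩ := Mk_spec k hk
      exact isChart_of (fz_ne k) _ _ 1 one_ne_zero h2 h3
    have hhi : ∀ t ∈ insert 5 (Finset.Icc 6 11), t ∈ (Finset.Icc 5 11 : Finset (Fin 12)) := by
      decide
    have hres : restriction (arrOf fz (insert k (insert 5 (Finset.Icc 6 11 ∪ T)))) (hyp (fz k))
        (mapOf (Mk k)) = arrOf fz2 (insert 5 (Finset.Icc 6 11)) := by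
      rw [restriction_arrOf hkn hne]
      ext H
      rw [mem_arrOf, mem_arrOf]
      constructor
      · rintro ⟨t, ht, rfl⟩
        by_cases ht5 : t ∈ insert 5 (Finset.Icc 6 11 : Finset (Fin 12))
        · exact ⟨t, ht5, by rw [Mk_hi k hk t (hhi t ht5)]⟩
        · have htT : t ∈ T := by
            rcases Finset.mem_insert.1 ht with h | h
            · exact absurd (Finset.mem_insert.2 (Or.inl h)) ht5
            · rcases Finset.mem_union.1 h with h | h
              · exact absurd (Finset.mem_insert_of_mem h) ht5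
              · exact h
          obtain ⟨s, hs, h1, h2, h3⟩ := Mk_lo k hk t (hT' htT) (fun e => hkT (e ▸ htT))
          have hs' : ∀ s ∈ (Finset.Icc 5 8 : Finset (Fin 12)),
            s ∈ insert 5 (Finset.Icc 6 11 : Finset (Fin 12)) := by decide
          exact ⟨s, hs' s hs, (hyp2_eq h1 h2 h3).symm⟩
      · rintro ⟨t, ht, rfl⟩
        refine ⟨t, ?_, by rw [Mk_hi k hk t (hhi t ht)]⟩
        rcases Finset.mem_insert.1 ht with h | h
        · exact Finset.mem_insert.2 (Or.inl h)
        · exact Finset.mem_insert_of_mem (Finset.mem_union_left _ h)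
    refine InductivelyFree.add 2 _ (hyp (fz k)) (mapOf (Mk k))
      (mem_arrOf.2 ⟨k, Finset.mem_insert_self _ _, rfl⟩) hchart ?_ ?_ ?_
    · rw [deletion_arrOf hkn hne]; exact ih hT'
    · rw [hres]; exact indFree_two _ (by rfl)
    · rw [hres, deletion_arrOf hkn hne]
      refine ⟨_, _, exp_two (Finset.Icc 6 11) (by rfl), exp_high T hT', ?_⟩
      have hc : (Finset.Icc 6 11 : Finset (Fin 12)).card = 6 := by decide
      rw [ms2, ms3, hc]
      refine Multiset.cons_le_cons _ (Multiset.cons_le_cons _ (Multiset.zero_le _))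

theorem indFree_A12 : InductivelyFree 3 A12 := by
  have h := indFree_high (Finset.Icc 0 4) (by rfl)
  have e : insert 5 (Finset.Icc 6 11 ∪ Finset.Icc 0 4) = (Finset.univ : Finset (Fin 12)) := by
    decide
  rw [e] at h
  exact h

end

end R858SS
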