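import Mathlib

/-!
General definitions: logarithmic derivations, freeness with exponents, restriction,
inductively free and recursively free arrangements.
-/

namespace R858SS

open MvPolynomial

noncomputable section

variable {l : ℕ}

/-- The polynomial of a linear form `α` on `ℂ^l`. -/
def formPoly (α : (Fin l → ℂ) →ₗ[ℂ] ℂ) : MvPolynomial (Fin l) ℂ :=
  ∑ i, C (α (Pi.single i 1)) * X i

/-- The module `D(A)` of derivations `θ` of `S = ℂ[x_1, …, x_l]` with `θ(α) ∈ α S` for every
linear form `α` whose kernel belongs to `A`. -/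
def logDer (A : Finset (Submodule ℂ (Fin l → ℂ))) :
    Submodule (MvPolynomial (Fin l) ℂ)
      (Derivation ℂ (MvPolynomial (Fin l) ℂ) (MvPolynomial (Fin l) ℂ)) where
  carrier := {θ | ∀ α : (Fin l → ℂ) →ₗ[ℂ] ℂ, LinearMap.ker α ∈ A → formPoly α ∣ θ (formPoly α)}
  zero_mem' := fun _ _ => by simp
  add_mem' := fun ha hb α hα => by simpa using dvd_add (ha α hα) (hb α hα)
  smul_mem' := fun c _ hx α hα => by simpa using Dvd.dvd.mul_left (hx α hα) c

/-- `A` is free with exponents `m`: the module `D(A)` has a basis of homogeneous derivations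
(all `θ(x_k)` homogeneous of the same degree) whose polynomial degrees form the multiset `m`. -/
def HasExponents (A : Finset (Submodule ℂ (Fin l → ℂ))) (m : Multiset ℕ) : Prop :=
  ∃ (n : ℕ) (b : Module.Basis (Fin n) (MvPolynomial (Fin l) ℂ) (logDer A)) (d : Fin n → ℕ),
    (∀ (i : Fin n) (k : Fin l),
      ((b i : Derivation ℂ (MvPolynomial (Fin l) ℂ) (MvPolynomial (Fin l) ℂ)) (X k)).IsHomogeneous
        (d i)) ∧ m = (Finset.univ : Finset (Fin n)).val.map d

/-- `exp B ⊂ exp A` as multisets. -/
def ExpSub {l' : ℕ} (B : Finset (Submodule ℂ (Fin l' → ℂ)))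
    (A : Finset (Submodule ℂ (Fin l → ℂ))) : Prop :=
  ∃ m' m : Multiset ℕ, HasExponents B m' ∧ HasExponents A m ∧ m' ≤ m

/-- `ι` is a linear isomorphism of `ℂ^l` with the hyperplane `H` of `ℂ^(l+1)`. -/
def IsChart (H : Submodule ℂ (Fin (l + 1) → ℂ)) (ι : (Fin l → ℂ) →ₗ[ℂ] (Fin (l + 1) → ℂ)) : Prop :=
  Function.Injective ι ∧ LinearMap.range ι = H

open Classical in
/-- The deletion `A' = A \ {H}`. -/
def deletion (A : Finset (Submodule ℂ (Fin l → ℂ))) (H : Submodule ℂ (Fin l → ℂ)) :
    Finset (Submodule ℂ (Fin l → ℂ)) := A.erase H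

open Classical in
/-- The restriction `A'' = {H ∩ K : K ∈ A \ {H}}`, an arrangement in `H`, transported to `ℂ^l` by
an isomorphism `ι` of `ℂ^l` with `H`. -/
def restriction (A : Finset (Submodule ℂ (Fin (l + 1) → ℂ))) (H : Submodule ℂ (Fin (l + 1) → ℂ))
    (ι : (Fin l → ℂ) →ₗ[ℂ] (Fin (l + 1) → ℂ)) : Finset (Submodule ℂ (Fin l → ℂ)) :=
  (deletion A H).image fun K => K.comap ι

/-- The class of inductively free arrangements: the smallest class containing the empty
arrangement in every `ℂ^l` and containing `A` whenever for some `H ∈ A` the deletion and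
the restriction are in the class and `exp A'' ⊂ exp A'`. -/
inductive InductivelyFree : (l : ℕ) → Finset (Submodule ℂ (Fin l → ℂ)) → Prop
  | empty (l : ℕ) : InductivelyFree l ∅
  | add (l : ℕ) (A : Finset (Submodule ℂ (Fin (l + 1) → ℂ))) (H : Submodule ℂ (Fin (l + 1) → ℂ))
      (ι : (Fin l → ℂ) →ₗ[ℂ] (Fin (l + 1) → ℂ)) (hH : H ∈ A) (hι : IsChart H ι)
      (hdel : InductivelyFree (l + 1) (deletion A H))
      (hres : InductivelyFree l (restriction A H ι))
      (hexp : ExpSub (restriction A H ι) (deletion A H)) : InductivelyFree (l + 1) A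

/-- The class of recursively free arrangements: the smallest class containing the empty
arrangement in every `ℂ^l` such that for every triple `(A, A', A'')`: if `A'` and `A''` are in
the class and `exp A'' ⊂ exp A'` then `A` is in the class, and if `A` and `A''` are in the class and
`exp A'' ⊂ exp A` then `A'` is in the class. -/
inductive RecursivelyFree : (l : ℕ) → Finset (Submodule ℂ (Fin l → ℂ)) → Prop
  | empty (l : ℕ) : RecursivelyFree l ∅
  | add (l : ℕ) (A : Finset (Submodule ℂ (Fin (l + 1) → ℂ))) (H : Submodule ℂ (Fin (l + 1) → ℂ))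
      (ι : (Fin l → ℂ) →ₗ[ℂ] (Fin (l + 1) → ℂ)) (hH : H ∈ A) (hι : IsChart H ι)
      (hdel : RecursivelyFree (l + 1) (deletion A H))
      (hres : RecursivelyFree l (restriction A H ι))
      (hexp : ExpSub (restriction A H ι) (deletion A H)) : RecursivelyFree (l + 1) A
  | del (l : ℕ) (A : Finset (Submodule ℂ (Fin (l + 1) → ℂ))) (H : Submodule ℂ (Fin (l + 1) → ℂ))
      (ι : (Fin l → ℂ) →ₗ[ℂ] (Fin (l + 1) → ℂ)) (hH : H ∈ A) (hι : IsChart H ι)
      (hA : RecursivelyFree (l + 1) A)
      (hres : RecursivelyFree l (restriction A H ι))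
      (hexp : ExpSub (restriction A H ι) A) : RecursivelyFree (l + 1) (deletion A H)

theorem InductivelyFree.recursivelyFree {l : ℕ} {A : Finset (Submodule ℂ (Fin l → ℂ))}
    (h : InductivelyFree l A) : RecursivelyFree l A := by
  induction h with
  | empty l => exact RecursivelyFree.empty l
  | add l A H ι hH hι _ _ hexp ih1 ih2 => exact RecursivelyFree.add l A H ι hH hι ih1 ih2 hexp

end

end R858SS
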