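import Pool.Agent.R858.SS.FreeTools

/-!
Exponents of the arrangements in the chain.
-/

namespace R858SS

open MvPolynomial

noncomputable section

variable {l : ℕ}

/-- a triangular homogeneous family gives the exponents -/
theorem hasExp (A : Finset (Submodule ℂ (Fin l → ℂ)))
    (θ : Fin l → Derivation ℂ (MvPolynomial (Fin l) ℂ) (MvPolynomial (Fin l) ℂ)) (deg : Fin l → ℕ)
    (hdeg : ∀ i k, (θ i (X k)).IsHomogeneous (deg i))
    (hθ : ∀ i, θ i ∈ logDer A) (h0 : ∀ i j, j < i → θ i (X j) = 0) (hne : ∀ i, θ i (X i) ≠ 0)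
    (hdiv : ∀ η ∈ logDer A, ∀ i, (∀ j, j < i → η (X j) = 0) → θ i (X i) ∣ η (X i)) :
    HasExponents A ((Finset.univ : Finset (Fin l)).val.map deg) := by
  obtain ⟨b, hb⟩ := exists_basis A θ hθ h0 hne hdiv
  exact ⟨l, b, deg, fun i k => by rw [hb]; exact hdeg i k, rfl⟩

open Classical in
/-- the arrangement of the hyperplanes with coefficient vectors `w t`, `t ∈ T` -/
def arrOf {κ : Type} (w : κ → Fin l → ℤ) (T : Finset κ) : Finset (Submodule ℂ (Fin l → ℂ)) :=
  T.image fun i => hyp (w i)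

lemma mem_arrOf {κ : Type} {w : κ → Fin l → ℤ} {T : Finset κ} {H : Submodule ℂ (Fin l → ℂ)} :
    H ∈ arrOf w T ↔ ∃ t ∈ T, hyp (w t) = H := by
  simp [arrOf]

/-- the linear form with integer coefficients, as a polynomial -/
def ip (v : Fin l → ℤ) : MvPolynomial (Fin l) ℂ := formPoly (linOf v)

lemma ip_eq (v : Fin l → ℤ) : ip v = ∑ k, C (v k : ℂ) * X k := by
  rw [ip, formPoly]
  apply Finset.sum_congr rfl
  intro i _
  rw [linOf_apply, Finset.sum_eq_single i]
  · simp
  · intro j _ hj; simp [hj]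
  · simp

lemma der_C_mul (θ : Derivation ℂ (MvPolynomial (Fin l) ℂ) (MvPolynomial (Fin l) ℂ)) (a : ℂ)
    (f : MvPolynomial (Fin l) ℂ) : θ (C a * f) = C a * θ f := by
  rw [C_mul', θ.map_smul, smul_eq_C_mul]

lemma der_ip (θ : Derivation ℂ (MvPolynomial (Fin l) ℂ) (MvPolynomial (Fin l) ℂ))
    (v : Fin l → ℤ) : θ (ip v) = ∑ k, C (v k : ℂ) * θ (X k) := by
  rw [ip_eq, map_sum]
  apply Finset.sum_congr rfl
  intro i _
  rw [der_C_mul]

lemma formPoly_smul (c : ℂ) (α : (Fin l → ℂ) →ₗ[ℂ] ℂ) :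
    formPoly (c • α) = C c * formPoly α := by
  rw [formPoly, formPoly, Finset.mul_sum]
  apply Finset.sum_congr rfl
  intro i _
  rw [LinearMap.smul_apply, smul_eq_mul, C_mul, mul_assoc]

lemma mem_logDer_arrOf {κ : Type} {w : κ → Fin l → ℤ} {T : Finset κ}
    {θ : Derivation ℂ (MvPolynomial (Fin l) ℂ) (MvPolynomial (Fin l) ℂ)} :
    θ ∈ logDer (arrOf w T) ↔ ∀ t ∈ T, ip (w t) ∣ θ (ip (w t)) := by
  constructor
  · intro h t ht
    exact h (linOf (w t)) (mem_arrOf.2 ⟨t, ht, rfl⟩)
  · intro h α hα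
    obtain ⟨t, ht, hker⟩ := mem_arrOf.1 hα
    have h1 : ⨅ i : Unit, LinearMap.ker ((fun _ : Unit => linOf (w t)) i) ≤ LinearMap.ker α := by
      rw [iInf_const, ← hker]; exact le_rfl
    have h2 := mem_span_of_iInf_ker_le_ker h1
    rw [Set.range_const, Submodule.mem_span_singleton] at h2
    obtain ⟨c, rfl⟩ := h2
    rw [formPoly_smul, der_C_mul]
    exact mul_dvd_mul_left _ (h t ht)

lemma ip_ne {v : Fin l → ℤ} (hv : v ≠ 0) : ip v ≠ 0 := formPoly_ne (linOf_ne v hv)

lemma ip_hom (v : Fin l → ℤ) : (ip v).IsHomogeneous 1 := formPoly_hom _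

/-- the product of the linear forms -/
def ipr {κ : Type} (w : κ → Fin l → ℤ) (T : Finset κ) : MvPolynomial (Fin l) ℂ :=
  ∏ t ∈ T, ip (w t)

lemma ipr_hom {κ : Type} (w : κ → Fin l → ℤ) (T : Finset κ) :
    (ipr w T).IsHomogeneous T.card := by
  have := IsHomogeneous.prod T (fun t => ip (w t)) (fun _ => 1) (fun t _ => ip_hom (w t))
  simpa [ipr] using this

lemma ipr_ne {κ : Type} {w : κ → Fin l → ℤ} {T : Finset κ} (h : ∀ t ∈ T, w t ≠ 0) :
    ipr w T ≠ 0 := Finset.prod_ne_zero_iff.2 fun t ht => ip_ne (h t ht)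

lemma ip_dvd_ipr {κ : Type} (w : κ → Fin l → ℤ) {T : Finset κ} {t : κ} (ht : t ∈ T) :
    ip (w t) ∣ ipr w T := Finset.dvd_prod_of_mem _ ht

/-- divisibility by the product, using integer points on exactly one of the hyperplanes -/
lemma ipr_dvd {κ : Type} {w : κ → Fin l → ℤ} {T : Finset κ} (q : κ → Fin l → ℤ)
    (h : ∀ t ∈ T, w t ≠ 0)
    (hq : ∀ s ∈ T, ∀ t ∈ T, (∑ k, w t k * q s k = 0) ↔ s = t)
    {f : MvPolynomial (Fin l) ℂ} (hf : ∀ t ∈ T, ip (w t) ∣ f) : ipr w T ∣ f := by
  refine prod_dvd (fun t => linOf (w t)) T (fun t ht => linOf_ne _ (h t ht)) ?_ f hf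
  intro s hs t ht hst hle
  have h1 : (fun k => (q s k : ℂ)) ∈ hyp (w s) := (mem_hyp_int _ _).2 ((hq s hs s hs).2 rfl)
  have h2 : (fun k => (q s k : ℂ)) ∈ hyp (w t) := hle h1
  exact hst ((hq s hs t ht).1 ((mem_hyp_int _ _).1 h2))

/-- exponents of the empty arrangement -/
theorem exp_empty (l : ℕ) : HasExponents (∅ : Finset (Submodule ℂ (Fin l → ℂ)))
    ((Finset.univ : Finset (Fin l)).val.map fun _ => 0) := by
  refine hasExp ∅ (fun i => mkDerivation ℂ (Pi.single i 1)) (fun _ => 0) ?_ ?_ ?_ ?_ ?_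
  · intro i k
    rw [mkDerivation_X]
    by_cases h : k = i
    · subst h; rw [Pi.single_eq_same]; exact isHomogeneous_one _ _
    · rw [Pi.single_eq_of_ne h]; exact isHomogeneous_zero _ _ _
  · intro i α hα
    exact absurd hα (Finset.notMem_empty _)
  · intro i j hji
    rw [mkDerivation_X, Pi.single_eq_of_ne (ne_of_lt hji)]
  · intro i
    rw [mkDerivation_X, Pi.single_eq_same]; exact one_ne_zero
  · intro η _ i _
    rw [mkDerivation_X, Pi.single_eq_same]; exact one_dvd _

/-- exponents of the origin in the line -/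
theorem exp_one : HasExponents (arrOf (fun _ : Unit => (![1] : Fin 1 → ℤ)) Finset.univ)
    ((Finset.univ : Finset (Fin 1)).val.map ![1]) := by
  have e : ip (![1] : Fin 1 → ℤ) = X 0 := by rw [ip_eq]; simp
  refine hasExp _ (fun _ => mkDerivation ℂ X) ![1] ?_ ?_ ?_ ?_ ?_
  · intro i k
    rw [mkDerivation_X]
    fin_cases i
    exact isHomogeneous_X _ _
  · intro i
    rw [mem_logDer_arrOf]
    intro t _
    rw [e, mkDerivation_X]
  · intro i j hji
    exact absurd hji (by fin_cases i; fin_cases j; simp)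
  · intro i
    rw [mkDerivation_X]; exact X_ne_zero i
  · intro η hη i _
    have := mem_logDer_arrOf.1 hη () (Finset.mem_univ _)
    rw [e] at this
    fin_cases i
    rw [mkDerivation_X]
    exact this

/-- coefficient vectors in the plane -/
def fz2 : Fin 12 → Fin 2 → ℤ := fun j => ![fz j 0, fz j 1]

def wit2 : Fin 12 → Fin 2 → ℤ := fun j => ![-fz j 1, fz j 0]

lemma wit2_spec : ∀ i ∈ (Finset.Icc 5 11 : Finset (Fin 12)), ∀ j ∈ (Finset.Icc 5 11 : Finset (Fin 12)),
    (∑ k, fz2 j k * wit2 i k = 0) ↔ i = j := by decide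

lemma fz2_ne : ∀ i ∈ (Finset.Icc 5 11 : Finset (Fin 12)), fz2 i ≠ 0 := by decide

lemma dvd_of_mul_unit {p q : MvPolynomial (Fin l) ℂ} {c : ℤ} (hc : c ≠ 0)
    (h : p ∣ C (c : ℂ) * q) : p ∣ q := by
  have : q = C ((c : ℂ)⁻¹) * (C (c : ℂ) * q) := by
    rw [← mul_assoc, ← C_mul, inv_mul_cancel₀ (Int.cast_ne_zero.2 hc), C_1, one_mul]
  rw [this]
  exact Dvd.dvd.mul_left h _

/-- exponents of line arrangements in the plane -/
theorem exp_two (T : Finset (Fin 12)) (hT : T ⊆ Finset.Icc 6 11) :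
    HasExponents (arrOf fz2 (insert 5 T))
      ((Finset.univ : Finset (Fin 2)).val.map ![1, T.card]) := by
  have hsub : ∀ t ∈ T, t ∈ (Finset.Icc 5 11 : Finset (Fin 12)) := by
    intro t ht
    have := hT ht
    rw [Finset.mem_Icc] at this ⊢
    exact ⟨le_trans (by decide) this.1, this.2⟩
  have hb : ∀ t ∈ (Finset.Icc 6 11 : Finset (Fin 12)), fz2 t 1 ≠ 0 := by decide
  have e5 : ip (fz2 5) = X 0 := by
    rw [ip_eq, Fin.sum_univ_two]; simp [fz2, fz]
  refine hasExp _ ![mkDerivation ℂ ![X 0, X 1], mkDerivation ℂ ![0, ipr fz2 T]]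
    ![1, T.card] ?_ ?_ ?_ ?_ ?_
  · intro i k
    fin_cases i <;> fin_cases k
    · simpa [mkDerivation_X] using isHomogeneous_X ℂ (0 : Fin 2)
    · simpa [mkDerivation_X] using isHomogeneous_X ℂ (1 : Fin 2)
    · simpa [mkDerivation_X] using isHomogeneous_zero (Fin 2) ℂ T.card
    · simpa [mkDerivation_X] using ipr_hom fz2 T
  · intro i
    rw [mem_logDer_arrOf]
    intro t ht
    fin_cases i
    · have : (mkDerivation ℂ ![X 0, X 1] : Derivation ℂ (MvPolynomial (Fin 2) ℂ)
          (MvPolynomial (Fin 2) ℂ)) (ip (fz2 t)) = ip (fz2 t) := by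
        rw [der_ip, ip_eq, Fin.sum_univ_two, Fin.sum_univ_two, mkDerivation_X, mkDerivation_X]
        simp
      change ip (fz2 t) ∣ (mkDerivation ℂ ![X 0, X 1] : Derivation ℂ (MvPolynomial (Fin 2) ℂ)
          (MvPolynomial (Fin 2) ℂ)) (ip (fz2 t))
      rw [this]
    · have : (mkDerivation ℂ ![0, ipr fz2 T] : Derivation ℂ (MvPolynomial (Fin 2) ℂ)
          (MvPolynomial (Fin 2) ℂ)) (ip (fz2 t)) = C (fz2 t 1 : ℂ) * ipr fz2 T := by
        rw [der_ip, Fin.sum_univ_two, mkDerivation_X, mkDerivation_X]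
        simp
      change ip (fz2 t) ∣ (mkDerivation ℂ ![0, ipr fz2 T] : Derivation ℂ (MvPolynomial (Fin 2) ℂ)
          (MvPolynomial (Fin 2) ℂ)) (ip (fz2 t))
      rw [this]
      rcases Finset.mem_insert.1 ht with rfl | ht
      · have : fz2 5 1 = 0 := by decide
        rw [this]; simp
      · exact Dvd.dvd.mul_left (ip_dvd_ipr fz2 ht) _
  · intro i j hji
    fin_cases i <;> fin_cases j <;> simp at hji ⊢
  · intro i
    fin_cases i
    · simp [mkDerivation_X]
    · simpa [mkDerivation_X] using ipr_ne (w := fz2) (fun t ht => fz2_ne t (hsub t ht))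
  · intro η hη i hi
    have hη' := mem_logDer_arrOf.1 hη
    fin_cases i
    · have h := hη' 5 (Finset.mem_insert_self _ _)
      rw [e5] at h
      simpa [mkDerivation_X] using h
    · have h0 : η (X 0) = 0 := hi 0 (by simp)
      have : ipr fz2 T ∣ η (X 1) := by
        refine ipr_dvd wit2 (fun t ht => fz2_ne t (hsub t ht))
          (fun s hs t ht => wit2_spec s (hsub s hs) t (hsub t ht)) ?_
        intro t ht
        have h := hη' t (Finset.mem_insert_of_mem ht)
        rw [der_ip, Fin.sum_univ_two, h0, mul_zero, zero_add] at h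
        exact dvd_of_mul_unit (hb t (hT ht)) h
      simpa [mkDerivation_X] using this

lemma ip_fz (i : Fin 12) : ip (fz i) = lf i := by
  rw [ip_eq, Fin.sum_univ_three]
  fin_cases i <;> simp [lf, fz, px, py, pz, C_two, C_three] <;> ring

lemma fz_hi : ∀ t ∈ (Finset.Icc 5 11 : Finset (Fin 12)), fz t 2 = 0 := by decide
lemma fz_mid : ∀ t ∈ (Finset.Icc 6 11 : Finset (Fin 12)), fz t 1 ≠ 0 := by decide
lemma fz_lo : ∀ t ∈ (Finset.Icc 0 4 : Finset (Fin 12)), fz t 2 ≠ 0 := by decide

/-- exponents of the arrangements in three-space -/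
theorem exp_three (T1 T2 : Finset (Fin 12)) (hT1 : T1 ⊆ Finset.Icc 6 11)
    (hT2 : T2 ⊆ Finset.Icc 0 4) (g : R) (hg : g.IsHomogeneous T1.card)
    (hdvd : ∀ t ∈ T2, ip (fz t) ∣ C (fz t 1 : ℂ) * ipr fz T1 + C (fz t 2 : ℂ) * g) :
    HasExponents (arrOf fz (insert 5 (T1 ∪ T2)))
      ((Finset.univ : Finset (Fin 3)).val.map ![1, T1.card, T2.card]) := by
  have hsub : ∀ t ∈ T1, t ∈ (Finset.Icc 5 11 : Finset (Fin 12)) := by
    intro t ht
    have := hT1 ht
    rw [Finset.mem_Icc] at this ⊢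
    exact ⟨le_trans (by decide) this.1, this.2⟩
  have e5 : ip (fz 5) = X 0 := by rw [ip_fz]; rfl
  refine hasExp _ ![mkDerivation ℂ ![X 0, X 1, X 2], mkDerivation ℂ ![0, ipr fz T1, g],
    mkDerivation ℂ ![0, 0, ipr fz T2]] ![1, T1.card, T2.card] ?_ ?_ ?_ ?_ ?_
  · intro i k
    fin_cases i <;> fin_cases k
    · simpa [mkDerivation_X] using isHomogeneous_X ℂ (0 : Fin 3)
    · simpa [mkDerivation_X] using isHomogeneous_X ℂ (1 : Fin 3)
    · simpa [mkDerivation_X] using isHomogeneous_X ℂ (2 : Fin 3)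
    · simpa [mkDerivation_X] using isHomogeneous_zero (Fin 3) ℂ T1.card
    · simpa [mkDerivation_X] using ipr_hom fz T1
    · simpa [mkDerivation_X] using hg
    · simpa [mkDerivation_X] using isHomogeneous_zero (Fin 3) ℂ T2.card
    · simpa [mkDerivation_X] using isHomogeneous_zero (Fin 3) ℂ T2.card
    · simpa [mkDerivation_X] using ipr_hom fz T2
  · intro i
    rw [mem_logDer_arrOf]
    intro t ht
    fin_cases i
    · have : (mkDerivation ℂ ![X 0, X 1, X 2] : Derivation ℂ R R) (ip (fz t)) = ip (fz t) := by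
        rw [der_ip, ip_eq, Fin.sum_univ_three, Fin.sum_univ_three, mkDerivation_X,
          mkDerivation_X, mkDerivation_X]
        simp
      change ip (fz t) ∣ (mkDerivation ℂ ![X 0, X 1, X 2] : Derivation ℂ R R) (ip (fz t))
      rw [this]
    · have : (mkDerivation ℂ ![0, ipr fz T1, g] : Derivation ℂ R R) (ip (fz t)) =
          C (fz t 1 : ℂ) * ipr fz T1 + C (fz t 2 : ℂ) * g := by
        rw [der_ip, Fin.sum_univ_three, mkDerivation_X, mkDerivation_X, mkDerivation_X]
        simp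
      change ip (fz t) ∣ (mkDerivation ℂ ![0, ipr fz T1, g] : Derivation ℂ R R) (ip (fz t))
      rw [this]
      rcases Finset.mem_insert.1 ht with rfl | ht
      · have h1 : fz 5 1 = 0 := by decide
        have h2 : fz 5 2 = 0 := by decide
        rw [h1, h2]; simp
      · rcases Finset.mem_union.1 ht with ht | ht
        · rw [fz_hi t (hsub t ht), Int.cast_zero, C_0, zero_mul, add_zero]
          exact Dvd.dvd.mul_left (ip_dvd_ipr fz ht) _
        · exact hdvd t ht
    · have : (mkDerivation ℂ ![0, 0, ipr fz T2] : Derivation ℂ R R) (ip (fz t)) =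
          C (fz t 2 : ℂ) * ipr fz T2 := by
        rw [der_ip, Fin.sum_univ_three, mkDerivation_X, mkDerivation_X, mkDerivation_X]
        simp
      change ip (fz t) ∣ (mkDerivation ℂ ![0, 0, ipr fz T2] : Derivation ℂ R R) (ip (fz t))
      rw [this]
      rcases Finset.mem_insert.1 ht with rfl | ht
      · have h2 : fz 5 2 = 0 := by decide
        rw [h2]; simp
      · rcases Finset.mem_union.1 ht with ht | ht
        · rw [fz_hi t (hsub t ht), Int.cast_zero, C_0, zero_mul]; exact dvd_zero _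
        · exact Dvd.dvd.mul_left (ip_dvd_ipr fz ht) _
  · intro i j hji
    fin_cases i <;> fin_cases j <;> simp at hji ⊢
  · intro i
    fin_cases i
    · simp [mkDerivation_X]
    · simpa [mkDerivation_X] using ipr_ne (w := fz) (T := T1) (fun t _ => fz_ne t)
    · simpa [mkDerivation_X] using ipr_ne (w := fz) (T := T2) (fun t _ => fz_ne t)
  · intro η hη i hi
    have hη' := mem_logDer_arrOf.1 hη
    fin_cases i
    · have h := hη' 5 (Finset.mem_insert_self _ _)
      rw [e5] at h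
      simpa [mkDerivation_X] using h
    · have h0 : η (X 0) = 0 := hi 0 (by simp)
      have : ipr fz T1 ∣ η (X 1) := by
        refine ipr_dvd wit (fun t _ => fz_ne t) (fun s _ t _ => wit_spec s t) ?_
        intro t ht
        have h := hη' t (Finset.mem_insert_of_mem (Finset.mem_union_left _ ht))
        rw [der_ip, Fin.sum_univ_three, h0, mul_zero, zero_add, fz_hi t (hsub t ht),
          Int.cast_zero, C_0, zero_mul, add_zero] at h
        exact dvd_of_mul_unit (fz_mid t (hT1 ht)) h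
      simpa [mkDerivation_X] using this
    · have h0 : η (X 0) = 0 := hi 0 (by simp)
      have h1 : η (X 1) = 0 := hi 1 (by simp)
      have : ipr fz T2 ∣ η (X 2) := by
        refine ipr_dvd wit (fun t _ => fz_ne t) (fun s _ t _ => wit_spec s t) ?_
        intro t ht
        have h := hη' t (Finset.mem_insert_of_mem (Finset.mem_union_right _ ht))
        rw [der_ip, Fin.sum_univ_three, h0, h1, mul_zero, mul_zero, zero_add, zero_add] at h
        exact dvd_of_mul_unit (fz_lo t (hT2 ht)) h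
      simpa [mkDerivation_X] using this

/-- exponents when only planes through the line `x = y = 0` are present -/
theorem exp_low (T1 : Finset (Fin 12)) (hT1 : T1 ⊆ Finset.Icc 6 11) :
    HasExponents (arrOf fz (insert 5 T1))
      ((Finset.univ : Finset (Fin 3)).val.map ![1, T1.card, 0]) := by
  have h := exp_three T1 ∅ hT1 (by simp) 0 (isHomogeneous_zero _ _ _) (by simp)
  rw [Finset.union_empty] at h
  simpa using h

lemma ipr_six : ipr fz (Finset.Icc 6 11) = py * (px ^ 2 - py ^ 2) * pE := by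
  have : (Finset.Icc 6 11 : Finset (Fin 12)) = {6, 7, 8, 9, 10, 11} := by decide
  rw [ipr, this]
  rw [Finset.prod_insert (by decide), Finset.prod_insert (by decide),
    Finset.prod_insert (by decide), Finset.prod_insert (by decide),
    Finset.prod_insert (by decide), Finset.prod_singleton]
  simp only [ip_fz]
  simp [lf, pE]
  ring

/-- exponents when all planes through the line `x = y = 0` are present -/
theorem exp_high (T2 : Finset (Fin 12)) (hT2 : T2 ⊆ Finset.Icc 0 4) :
    HasExponents (arrOf fz (insert 5 (Finset.Icc 6 11 ∪ T2)))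
      ((Finset.univ : Finset (Fin 3)).val.map ![1, 6, T2.card]) := by
  have hc : (Finset.Icc 6 11 : Finset (Fin 12)).card = 6 := by decide
  have hg : (pz * (px ^ 2 - pz ^ 2) * pE).IsHomogeneous (Finset.Icc 6 11 : Finset (Fin 12)).card := by
    rw [hc]
    exact (homz.mul ((homx.pow 2).sub (homz.pow 2))).mul homE
  have h := exp_three (Finset.Icc 6 11) T2 (by rfl) hT2 (pz * (px ^ 2 - pz ^ 2) * pE) hg (by
    intro t ht
    have := hT2 ht
    have hall : ∀ t ∈ (Finset.Icc 0 4 : Finset (Fin 12)),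
        t = 0 ∨ t = 1 ∨ t = 2 ∨ t = 3 ∨ t = 4 := by decide
    have h5 := hall t this
    rw [ipr_six]
    rcases h5 with rfl | rfl | rfl | rfl | rfl
    · rw [ip_fz]
      exact ⟨(px ^ 2 - pz ^ 2) * pE, by simp [lf, fz]; ring⟩
    · rw [ip_fz]
      exact ⟨-(pz * (px + pz) * pE), by simp [lf, fz]; ring⟩
    · rw [ip_fz]
      exact ⟨pz * (px - pz) * pE, by simp [lf, fz]; ring⟩
    · rw [ip_fz]
      exact ⟨(px ^ 2 - py ^ 2 - py * pz - pz ^ 2) * pE, by simp [lf, fz]; ring⟩
    · rw [ip_fz]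
      exact ⟨(px ^ 2 - py ^ 2 + py * pz - pz ^ 2) * pE, by simp [lf, fz]; ring⟩)
  rw [hc] at h
  exact h

end

end R858SS
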