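import Pool.Agent.R858.SS.FreeDefs
import Pool.Agent.R858.SS.Arr

/-!
Tools: linear forms are primes, triangular bases of the module of logarithmic derivations.
-/

namespace R858SS

open MvPolynomial

noncomputable section

variable {l : ℕ}

lemma coeff_formPoly (α : (Fin l → ℂ) →ₗ[ℂ] ℂ) (k : Fin l) :
    coeff (Finsupp.single k 1) (formPoly α) = α (Pi.single k 1) := by
  classical
  rw [formPoly, coeff_sum, Finset.sum_eq_single k]
  · rw [coeff_C_mul, coeff_X, if_pos rfl, mul_one]
  · intro j _ hj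
    rw [coeff_C_mul, coeff_X, if_neg, mul_zero]
    intro h
    exact hj (Finsupp.single_left_injective one_ne_zero h)
  · intro h; exact absurd (Finset.mem_univ k) h

lemma eval_formPoly (α : (Fin l → ℂ) →ₗ[ℂ] ℂ) (p : Fin l → ℂ) : eval p (formPoly α) = α p := by
  rw [formPoly, map_sum, LinearMap.pi_apply_eq_sum_univ α p]
  apply Finset.sum_congr rfl
  intro i _
  have : (Pi.single i (1 : ℂ) : Fin l → ℂ) = fun j => if i = j then 1 else 0 := by
    funext j
    rw [Pi.single_apply]
    by_cases h : i = j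
    · subst h; simp
    · rw [if_neg h, if_neg (fun e => h e.symm)]
  rw [this]
  simp [mul_comm]

lemma formPoly_hom (α : (Fin l → ℂ) →ₗ[ℂ] ℂ) : (formPoly α).IsHomogeneous 1 :=
  IsHomogeneous.sum _ _ _ fun i _ => (isHomogeneous_X ℂ i).C_mul _

lemma exists_ne {α : (Fin l → ℂ) →ₗ[ℂ] ℂ} (h : α ≠ 0) : ∃ k, α (Pi.single k 1) ≠ 0 := by
  by_contra hcon
  push Not at hcon
  apply h
  apply LinearMap.pi_ext'
  intro i
  ext
  simpa using hcon i

lemma formPoly_ne {α : (Fin l → ℂ) →ₗ[ℂ] ℂ} (h : α ≠ 0) : formPoly α ≠ 0 := by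
  obtain ⟨k, hk⟩ := exists_ne h
  intro e
  apply hk
  rw [← coeff_formPoly, e, coeff_zero]

lemma prime_formPoly {α : (Fin l → ℂ) →ₗ[ℂ] ℂ} (h : α ≠ 0) : Prime (formPoly α) := by
  apply Irreducible.prime
  obtain ⟨k, hk⟩ := exists_ne h
  apply irreducible_of_totalDegree_eq_one
  · exact (formPoly_hom α).totalDegree (formPoly_ne h)
  · intro x hx
    have := hx (Finsupp.single k 1)
    rw [coeff_formPoly] at this
    rw [isUnit_iff_ne_zero]
    rintro rfl
    exact hk (zero_dvd_iff.1 this)

lemma ker_le_of_dvd {α β : (Fin l → ℂ) →ₗ[ℂ] ℂ} (h : formPoly α ∣ formPoly β) :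
    LinearMap.ker α ≤ LinearMap.ker β := by
  intro p hp
  obtain ⟨q, hq⟩ := h
  have := congrArg (eval p) hq
  rw [map_mul, eval_formPoly, eval_formPoly, LinearMap.mem_ker.1 hp, zero_mul] at this
  exact this

/-- pairwise nonproportional linear forms dividing `f`: their product divides `f` -/
lemma prod_dvd {ι : Type*} (α : ι → (Fin l → ℂ) →ₗ[ℂ] ℂ) (T : Finset ι)
    (h0 : ∀ t ∈ T, α t ≠ 0)
    (h1 : ∀ s ∈ T, ∀ t ∈ T, s ≠ t → ¬ LinearMap.ker (α s) ≤ LinearMap.ker (α t))
    (f : MvPolynomial (Fin l) ℂ) (hf : ∀ t ∈ T, formPoly (α t) ∣ f) :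
    ∏ t ∈ T, formPoly (α t) ∣ f := by
  classical
  induction T using Finset.induction_on with
  | empty => simp
  | insert s T hs ih =>
    have ih' := ih (fun t ht => h0 t (Finset.mem_insert_of_mem ht))
      (fun a ha b hb => h1 a (Finset.mem_insert_of_mem ha) b (Finset.mem_insert_of_mem hb))
      (fun t ht => hf t (Finset.mem_insert_of_mem ht))
    obtain ⟨q, hq⟩ := ih'
    have hp := prime_formPoly (h0 s (Finset.mem_insert_self s T))
    have hd := hf s (Finset.mem_insert_self s T)
    rw [hq] at hd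
    rcases hp.dvd_or_dvd hd with h | h
    · obtain ⟨t, ht, hst⟩ := (Prime.dvd_finsetProd_iff hp _).1 h
      exfalso
      refine h1 s (Finset.mem_insert_self s T) t (Finset.mem_insert_of_mem ht) ?_
        (ker_le_of_dvd hst)
      rintro rfl; exact hs ht
    · obtain ⟨r, hr⟩ := h
      rw [Finset.prod_insert hs]
      exact ⟨r, by rw [hq, hr]; ring⟩

/-- a triangular family is a basis -/
theorem exists_basis (A : Finset (Submodule ℂ (Fin l → ℂ)))
    (θ : Fin l → Derivation ℂ (MvPolynomial (Fin l) ℂ) (MvPolynomial (Fin l) ℂ))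
    (hθ : ∀ i, θ i ∈ logDer A) (h0 : ∀ i j, j < i → θ i (X j) = 0) (hne : ∀ i, θ i (X i) ≠ 0)
    (hdiv : ∀ η ∈ logDer A, ∀ i, (∀ j, j < i → η (X j) = 0) → θ i (X i) ∣ η (X i)) :
    ∃ b : Module.Basis (Fin l) (MvPolynomial (Fin l) ℂ) (logDer A),
      ∀ i, (b i : Derivation ℂ (MvPolynomial (Fin l) ℂ) (MvPolynomial (Fin l) ℂ)) = θ i := by
  let v : Fin l → logDer A := fun i => ⟨θ i, hθ i⟩
  have hli : LinearIndependent (MvPolynomial (Fin l) ℂ) v := by
    refine Fintype.linearIndependent_iffₛ.2 ?_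
    intro f g' hfg
    suffices hs : ∀ i, (f - g') i = 0 by
      intro i
      have := hs i
      rwa [Pi.sub_apply, sub_eq_zero] at this
    have hfg' : ∑ i, f i • θ i = ∑ i, g' i • θ i := by
      have := congrArg (fun x : logDer A =>
        (x : Derivation ℂ (MvPolynomial (Fin l) ℂ) (MvPolynomial (Fin l) ℂ))) hfg
      simpa only [Submodule.coe_sum, Submodule.coe_smul, v] using this
    have hsum : ∀ (g : Fin l → MvPolynomial (Fin l) ℂ) (i : Fin l),
        (∑ j, g j • θ j) (X i) = ∑ j, g j * θ j (X i) := by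
      intro g i
      rw [← Derivation.coeFnAddMonoidHom_apply, map_sum, Finset.sum_apply]
      rfl
    set g := f - g' with hgdef
    have key : ∀ k : ℕ, ∀ i : Fin l, i.val < k → g i = 0 := by
      intro k
      induction k with
      | zero => intro i hi; omega
      | succ k ih =>
        intro i hi
        by_cases hik : i.val < k
        · exact ih i hik
        have h1 : ∑ j, g j * θ j (X i) = 0 := by
          have h3 := congrArg (fun D : Derivation ℂ (MvPolynomial (Fin l) ℂ)
            (MvPolynomial (Fin l) ℂ) => D (X i)) hfg'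
          simp only [hsum] at h3
          simp only [hgdef, Pi.sub_apply, sub_mul, Finset.sum_sub_distrib, h3, sub_self]
        rw [Finset.sum_eq_single i] at h1
        · exact (mul_eq_zero.1 h1).resolve_right (hne i)
        · intro j _ hj
          rcases lt_or_gt_of_ne hj with h | h
          · rw [ih j (by have := Fin.lt_def.1 h; omega), zero_mul]
          · rw [h0 j i h, mul_zero]
        · intro h; exact absurd (Finset.mem_univ i) h
    exact fun i => key (i.val + 1) i (Nat.lt_succ_self _)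
  have hsp : ⊤ ≤ Submodule.span (MvPolynomial (Fin l) ℂ) (Set.range v) := by
    rintro ⟨η, hη⟩ -
    have key : ∀ k : ℕ, k ≤ l → ∃ ζ ∈ Submodule.span (MvPolynomial (Fin l) ℂ) (Set.range v),
        ∀ j : Fin l, j.val < k → (η - (ζ : Derivation ℂ (MvPolynomial (Fin l) ℂ) (MvPolynomial (Fin l) ℂ))) (X j) = 0 := by
      intro k
      induction k with
      | zero => intro _; exact ⟨0, Submodule.zero_mem _, fun j hj => by omega⟩
      | succ k ih =>
        intro hk
        obtain ⟨ζ, hζ, hz⟩ := ih (by omega)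
        have hmem : η - (ζ : Derivation ℂ (MvPolynomial (Fin l) ℂ) (MvPolynomial (Fin l) ℂ))
            ∈ logDer A := Submodule.sub_mem _ hη ζ.2
        obtain ⟨q, hq⟩ := hdiv _ hmem ⟨k, by omega⟩ (fun j hj => hz j (Fin.lt_def.1 hj))
        refine ⟨ζ + q • v ⟨k, by omega⟩, Submodule.add_mem _ hζ
          (Submodule.smul_mem _ _ (Submodule.subset_span ⟨_, rfl⟩)), ?_⟩
        intro j hj
        have e : (η - ((ζ + q • v ⟨k, by omega⟩ : logDer A) :
            Derivation ℂ (MvPolynomial (Fin l) ℂ) (MvPolynomial (Fin l) ℂ))) (X j) =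
            (η - (ζ : Derivation ℂ (MvPolynomial (Fin l) ℂ) (MvPolynomial (Fin l) ℂ))) (X j)
              - q * θ ⟨k, by omega⟩ (X j) := by
          simp [v]; ring
        rw [e]
        by_cases hjk : j.val < k
        · rw [hz j hjk, h0 _ _ (Fin.lt_def.2 hjk), mul_zero, sub_zero]
        · have : j = ⟨k, by omega⟩ := Fin.ext (by simp; omega)
          rw [this, hq]; ring
    obtain ⟨ζ, hζ, hz⟩ := key l le_rfl
    have : (⟨η, hη⟩ : logDer A) = ζ := by
      apply Subtype.ext
      apply derivation_ext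
      intro i
      have := hz i i.2
      simpa [sub_eq_zero] using this
    rw [this]; exact hζ
  refine ⟨Module.Basis.mk hli hsp, fun i => ?_⟩
  rw [Module.Basis.mk_apply]

end

end R858SS
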